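import Mathlib
import Pool.Agent.Helper70.IdemDefs

/-!
Networks: explicit families of equivalence relations which encode constraint systems on the
cells of a grid `X × Y` in `O(|X| + |Y| + |L|)` points and relations.
-/

set_option autoImplicit false

namespace Pool.Agent.Helper59.PZ

open Pool.Agent.Helper70.IdemDefs

/-- The six values of a cell: the ordered pairs of two different colours. -/
abbrev Val := {p : Fin 3 × Fin 3 // p.1 ≠ p.2}

/-- first colour of a value -/
def fs (v : Val) : Fin 3 := v.1.1

/-- second colour of a value -/
def sn (v : Val) : Fin 3 := v.1.2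

/-- A network: rows `X`, columns `Y`, links `L`, names `M`. A link `l` joins two different columns
`ep l false`, `ep l true`. In a row `x` the links in use form a matching of columns:
`lab x y = some (l, b)` means that in the row `x` the column `y = ep l b` uses the link `l`.
Constraints: `Nm b x y m` says that a colour of the cell `(x, y)` has the name `m`: the second
colour if `b = true` and the cell is not linked, the first colour otherwise. In every column
colours with the same name agree. -/
structure Network (X Y L M : Type) where
  ep : L → Bool → Y
  ep_ne : ∀ l b, ep l b ≠ ep l (!b)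
  lab : X → Y → Option (L × Bool)
  lab_ep : ∀ x y l b, lab x y = some (l, b) → ep l b = y
  lab_sym : ∀ x y l b, lab x y = some (l, b) → lab x (ep l (!b)) = some (l, !b)
  Nm : Bool → X → Y → M → Prop
  Nm_uniq : ∀ b x y m m', Nm b x y m → Nm b x y m' → m = m'
  star : X
  base : Y
  lab_star : ∀ y, lab star y = none
  two : ∀ y : Y, ∃ y', y' ≠ y

/-- The points of the set `E` of a network: `zero`, two points `r false`, `r true`, the rows, the
columns, and three sorts of colours: plain colours `pl y v` of a column, outer colours `out l b v`
and inner colours `inn l b v` of the end `b` of a link. -/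
inductive Pt (X Y L : Type) : Type
  | zero : Pt X Y L
  | r : Bool → Pt X Y L
  | row : X → Pt X Y L
  | col : Y → Pt X Y L
  | pl : Y → Val → Pt X Y L
  | out : L → Bool → Val → Pt X Y L
  | inn : L → Bool → Val → Pt X Y L

variable {X Y L M : Type}

namespace Network

variable (N : Network X Y L M)

/-- The point which stands for the value `v` at the cell `(x, y)`. -/
def cell (x : X) (y : Y) (v : Val) : Pt X Y L :=
  match N.lab x y with
  | none => Pt.pl y v
  | some (l, b) => Pt.out l b v

open Classical in
/-- Action of a column `y` on a point; on a row it depends on a value `v` for the cell. -/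
noncomputable def act (y : Y) (v : Val) : Pt X Y L → Pt X Y L
  | .zero => .zero
  | .r s => .r s
  | .row x => N.cell x y v
  | .col y' => .col y'
  | .pl y' w => if y' = y then .pl y' w else .zero
  | .out l b w => if N.ep l b = y then .out l b w
      else if N.ep l (!b) = y then .inn l (!b) w else .zero
  | .inn l b w => if N.ep l b = y then .inn l b w
      else if N.ep l (!b) = y then .inn l (!b) w else .zero

/-- The colour which the names of the sort `b` refer to, of the value `v` at the cell `(x, y)`: the
second colour if `b = true` and the cell is not linked, the first colour otherwise. -/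
def look (b : Bool) (x : X) (y : Y) (v : Val) : Fin 3 :=
  if b = true ∧ (N.lab x y).isNone = true then sn v else fs v

/-- Values `v` at `(x, y)` and `w` at `(x', y)` which respect the constraints between these two
cells. -/
def AllowV (x x' : X) (y : Y) (v w : Val) : Prop :=
  (x = x' → v = w) ∧ ∀ b m, N.Nm b x y m → N.Nm b x' y m → N.look b x y v = N.look b x' y w

/-- Values `v` at `(x, y)` and `w` at `(x, y')` which are equal if these cells are linked. -/
def AllowH (x : X) (y y' : Y) (v w : Val) : Prop :=
  (y = y' → v = w) ∧
    (∀ l b, N.lab x y = some (l, b) → N.ep l (!b) = y' → v = w)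

/-- The rules: `Rule u u' a a'` says that a relation of the family which relates `u` and `u'`
must relate `a` and `a'`. -/
inductive Rule : Pt X Y L → Pt X Y L → Pt X Y L → Pt X Y L → Prop
  | left (u u' : Pt X Y L) (y : Y) (v w : Val)
      (h : ∀ x x', u = .row x → u' = .row x' → N.AllowV x x' y v w) :
      Rule u u' (N.act y v u) (N.act y w u')
  | right (y y' : Y) (p : Pt X Y L) (v w : Val)
      (h : ∀ x, p = .row x → N.AllowH x y y' v w) :
      Rule (.col y) (.col y') (N.act y v p) (N.act y' w p)
  | inert (y : Y) (t p : Pt X Y L) (v : Val) (h : ∀ y', t ≠ .col y') :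
      Rule (.col y) t (N.act y v p) p

/-- closed under the rules -/
def Inv (θ : Setoid (Pt X Y L)) : Prop :=
  ∀ u u' a a', θ u u' → N.Rule u u' a a' → θ a a'

/-- The least equivalence relation which relates `u` and `u'` and is closed under the rules. -/
def cg (u u' : Pt X Y L) : Setoid (Pt X Y L) := sInf {θ | θ u u' ∧ N.Inv θ}

/-- The least equivalence relation which relates any two rows with the same name of the sort `b` in
the column `y` and is closed under the rules. -/
def cn (b : Bool) (y : Y) : Setoid (Pt X Y L) :=
  sInf {θ | (∀ x x' m, N.Nm b x y m → N.Nm b x' y m → θ (.row x) (.row x')) ∧ N.Inv θ}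

/-- The pairs of points which generate relations of the family. -/
inductive Seed : Pt X Y L → Pt X Y L → Prop
  | zero (p : Pt X Y L) : Seed .zero p
  | r (s : Bool) (p : Pt X Y L) : Seed (.r s) p
  | star (p : Pt X Y L) : Seed (.row N.star) p
  | base (p : Pt X Y L) : Seed (.col N.base) p
  | inn (l : L) (b : Bool) (v : Val) : Seed (.out l b v) (.inn l b v)
  | pl (l : L) (b : Bool) (v : Val) : Seed (.out l b v) (.pl (N.ep l b) v)
  | link (l : L) : Seed (.col (N.ep l false)) (.col (N.ep l true))

/-- The family of a network: the relations `cg u u'` for the pairs `Seed u u'`, and the relations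
`cn b y`. -/
def family : Set (Setoid (Pt X Y L)) :=
  {θ | (∃ u u', N.Seed u u' ∧ θ = N.cg u u') ∨ ∃ b y, θ = N.cn b y}

/-- `c` satisfies all constraints of the network. -/
def Valid (c : X → Y → Val) : Prop :=
  (∀ x y l b, N.lab x y = some (l, b) → c x y = c x (N.ep l (!b))) ∧
  (∀ b x x' y m, N.Nm b x y m → N.Nm b x' y m →
    N.look b x y (c x y) = N.look b x' y (c x' y))

/-- The binary operation of a choice of values. -/
noncomputable def op (c : X → Y → Val) (u t : Pt X Y L) : Pt X Y L :=
  match t, u with
  | .col y, .row x => N.cell x y (c x y)
  | .col y, u => N.act y ⟨(0, 1), by decide⟩ u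
  | _, u => u

end Network

end Pool.Agent.Helper59.PZ
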