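import Mathlib
import Pool.Agent.Helper59.PZ.Defs

/-!
Basic facts on the family of a network.
-/

set_option autoImplicit false

namespace Pool.Agent.Helper59.PZ

open Pool.Agent.Helper70.IdemDefs

variable {X Y L M : Type} (N : Network X Y L M)

namespace Network

theorem cg_rel (u u' : Pt X Y L) : N.cg u u' u u' := by
  intro θ hθ
  exact hθ.1

theorem inv_cg (u u' : Pt X Y L) : N.Inv (N.cg u u') := by
  intro a a' b b' h hr θ hθ
  exact hθ.2 _ _ _ _ (h θ hθ) hr

theorem inv_cn (b : Bool) (y : Y) : N.Inv (N.cn b y) := by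
  intro a a' c c' h hr θ hθ
  exact hθ.2 _ _ _ _ (h θ hθ) hr

theorem cn_le {θ : Setoid (Pt X Y L)} (h : N.Inv θ) {b : Bool} {y : Y}
    (hu : ∀ x x' m, N.Nm b x y m → N.Nm b x' y m → θ (.row x) (.row x')) : N.cn b y ≤ θ := by
  intro c d hcd
  exact hcd θ ⟨hu, h⟩

theorem cn_rel {b : Bool} {y : Y} {x x' : X} {m : M} (h : N.Nm b x y m) (h' : N.Nm b x' y m) :
    N.cn b y (.row x) (.row x') := by
  intro θ hθ
  exact hθ.1 x x' m h h'

theorem cg_le {θ : Setoid (Pt X Y L)} (h : N.Inv θ) {u u' : Pt X Y L} (hu : θ u u') :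
    N.cg u u' ≤ θ := by
  intro a b hab
  exact hab θ ⟨hu, h⟩

/-- the pair `u`, `u'` generates a relation of the family -/
def Sd (u u' : Pt X Y L) : Prop := N.Seed u u' ∨ N.Seed u' u

theorem pres_seed {f : Pt X Y L → Pt X Y L → Pt X Y L}
    (hf : ∀ θ ∈ N.family, Preserves f θ) {θ : Setoid (Pt X Y L)} (h : N.Inv θ)
    {u u' : Pt X Y L} (hs : N.Sd u u') (hu : θ u u') (t : Pt X Y L) :
    θ (f u t) (f u' t) ∧ θ (f t u) (f t u') := by
  rcases hs with hs | hs
  · have h1 := hf _ (Or.inl ⟨u, u', hs, rfl⟩)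
    exact ⟨N.cg_le h hu (h1 u u' t t (N.cg_rel u u') ((N.cg u u').refl t)),
      N.cg_le h hu (h1 t t u u' ((N.cg u u').refl t) (N.cg_rel u u'))⟩
  · have h1 := hf _ (Or.inl ⟨u', u, hs, rfl⟩)
    exact ⟨θ.symm (N.cg_le h (θ.symm hu) (h1 u' u t t (N.cg_rel u' u) ((N.cg u' u).refl t))),
      θ.symm (N.cg_le h (θ.symm hu) (h1 t t u' u ((N.cg u' u).refl t) (N.cg_rel u' u)))⟩

theorem pres_names {f : Pt X Y L → Pt X Y L → Pt X Y L}
    (hf : ∀ θ ∈ N.family, Preserves f θ) {θ : Setoid (Pt X Y L)} (h : N.Inv θ)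
    {b : Bool} {y : Y} (hu : ∀ x x' m, N.Nm b x y m → N.Nm b x' y m → θ (.row x) (.row x'))
    {x x' : X} {m : M} (hx : N.Nm b x y m) (hx' : N.Nm b x' y m) (t : Pt X Y L) :
    θ (f (.row x) t) (f (.row x') t) ∧ θ (f t (.row x)) (f t (.row x')) := by
  have h1 := hf _ (Or.inr ⟨b, y, rfl⟩)
  exact ⟨N.cn_le h hu (h1 _ _ t t (N.cn_rel hx hx') ((N.cn b y).refl t)),
    N.cn_le h hu (h1 t t _ _ ((N.cn b y).refl t) (N.cn_rel hx hx'))⟩

theorem act_nonrow (y : Y) (v w : Val) (p : Pt X Y L) (h : ∀ x, p ≠ .row x) :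
    N.act y v p = N.act y w p := by
  cases p <;> first | rfl | exact absurd rfl (h _)

theorem allowV_symm {x x' : X} {y : Y} {v w : Val} (h : N.AllowV x x' y v w) :
    N.AllowV x' x y w v :=
  ⟨fun e => (h.1 e.symm).symm, fun b m p q => (h.2 b m q p).symm⟩

/-- Invariance of the kernel of a map for which the columns are isolated. -/
theorem inv_ker {α : Type} (k : Pt X Y L → α) (hcol : ∀ y t, k (.col y) = k t → t = .col y)
    (hleft : ∀ u u' y v w, k u = k u' →
      (∀ x x', u = .row x → u' = .row x' → N.AllowV x x' y v w) →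
        k (N.act y v u) = k (N.act y w u')) : N.Inv (Setoid.ker k) := by
  intro u u' a a' h hr
  have h' : k u = k u' := h
  cases hr with
  | left _ _ y v w hal => exact hleft _ _ _ _ _ h' hal
  | right y y' p v w hal =>
    have e := hcol _ _ h'
    have e' : y' = y := by simpa using e
    subst e'
    show k _ = k _
    by_cases hp : ∃ x, p = .row x
    · obtain ⟨x, rfl⟩ := hp
      have := (hal x rfl).1 rfl
      rw [this]
    · rw [N.act_nonrow y' v w p (fun x hx => hp ⟨x, hx⟩)]
  | inert y t p v hal =>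
    exact absurd (hcol _ _ h') (hal y)

/-- The operation of a valid choice of values preserves everything. -/
theorem op_pres (c : X → Y → Val) (hc : N.Valid c) {θ : Setoid (Pt X Y L)} (h : N.Inv θ) :
    Preserves (N.op c) θ := by
  have hact : ∀ (y : Y) (u : Pt X Y L), N.op c u (.col y) =
      N.act y (match u with | .row x => c x y | _ => ⟨(0, 1), by decide⟩) u := by
    intro y u
    cases u <;> rfl
  intro u u' t t' hu ht
  have h1 : θ (N.op c u t) (N.op c u' t) := by
    by_cases hcol : ∃ y, t = .col y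
    · obtain ⟨y, rfl⟩ := hcol
      rw [hact, hact]
      refine h _ _ _ _ hu (Rule.left u u' y _ _ ?_)
      rintro x x' rfl rfl
      refine ⟨?_, ?_⟩
      · rintro rfl; rfl
      · intro b m p q; exact hc.2 b x x' y m p q
    · have e : ∀ w, N.op c w t = w := by
        intro w
        cases t <;> first | rfl | exact absurd ⟨_, rfl⟩ hcol
      rw [e, e]; exact hu
  refine θ.trans h1 ?_
  by_cases hcol : ∃ y, t = .col y
  · obtain ⟨y, rfl⟩ := hcol
    by_cases hcol' : ∃ y, t' = .col y
    · obtain ⟨y', rfl⟩ := hcol'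
      rw [hact, hact]
      refine h _ _ _ _ ht (Rule.right y y' u' _ _ ?_)
      rintro x rfl
      refine ⟨?_, ?_⟩
      · rintro rfl; rfl
      · rintro l b hl rfl
        exact hc.1 _ _ _ _ hl
    · have e : N.op c u' t' = u' := by
        cases t' <;> first | rfl | exact absurd ⟨_, rfl⟩ hcol'
      rw [e, hact]
      exact h _ _ _ _ ht (Rule.inert y t' u' _ (fun y' hy' => hcol' ⟨y', hy'⟩))
  · have e : N.op c u' t = u' := by
      cases t <;> first | rfl | exact absurd ⟨_, rfl⟩ hcol
    by_cases hcol' : ∃ y, t' = .col y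
    · obtain ⟨y', rfl⟩ := hcol'
      rw [e, hact]
      exact θ.symm (h _ _ _ _ (θ.symm ht) (Rule.inert y' t u' _ (fun y hy => hcol ⟨y, hy⟩)))
    · have e' : N.op c u' t' = u' := by
        cases t' <;> first | rfl | exact absurd ⟨_, rfl⟩ hcol'
      rw [e, e']

theorem op_idem (c : X → Y → Val) (u : Pt X Y L) : N.op c u u = u := by
  cases u <;> rfl

/-- A network with a valid choice of values and at least one column fails (P). -/
theorem not_propertyP (c : X → Y → Val) (hc : N.Valid c) :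
    ¬ PropertyP N.family := by
  intro hP
  have y := N.base
  have hpres : ∀ θ ∈ N.family, Preserves (N.op c) θ := by
    rintro θ (⟨u, u', -, rfl⟩ | ⟨b, y', rfl⟩)
    · exact N.op_pres c hc (N.inv_cg u u')
    · exact N.op_pres c hc (N.inv_cn b y')
  rcases hP (N.op c) (N.op_idem c) hpres with h | h
  · -- a plain colour of another column is killed
    obtain ⟨y', h2⟩ := N.two y
    have h1 := h (.pl y' ⟨(0, 1), by decide⟩) (.col y)
    simp [Network.op, Network.act, h2] at h1
  · have := h (.r false) (.r true)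
    simp [Network.op] at this

end Network

end Pool.Agent.Helper59.PZ
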