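import Mathlib
import Pool.Agent.Helper59.PZ.Defs

/-!
Layouts of a graph, and the data of the network of a layout.
-/

set_option autoImplicit false

namespace Pool.Agent.Helper59.PZ

variable {V : Type}

/-- Incidences of a graph: an edge with one of its two ends. -/
abbrev Inc (G : SimpleGraph V) : Type := G.edgeSet × Bool

/-- The vertex of an incidence `(e, b)`: the second end of `e` if `b = true`, the first end
otherwise, for a chosen order of the two ends of every edge. -/
noncomputable def vert {G : SimpleGraph V} (i : Inc G) : V :=
  if i.2 = true then (Quot.out i.1.1).2 else (Quot.out i.1.1).1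

/-- The rows of the network of a layout. The rows `comm p ρ` are used by all hops of the parity
`p`. -/
inductive Row (R H H' : Type) : Type
  | star : Row R H H'
  | comm : Bool → R → Row R H H'
  | home : H → Row R H H'
  | edge : H' → Row R H H'

/-- A layout of a graph. The vertices are placed in a grid with columns `A` and rows `H`, the edges
in a grid with columns `A` and rows `H'`. Every incidence is sent from the column of its vertex to
the column of its edge in `h + 1` hops; the hop `j` goes from a column of the level `j` to a column
of the level `j + 1` along one of the links `L`, and it uses one of the labels `R`, so that two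
incidences with the same label in the same hop start in different columns and arrive in different
columns. -/
structure Layout (G : SimpleGraph V) where
  h : ℕ
  A : Type
  L : Type
  R : Type
  H : Type
  H' : Type
  finA : Finite A
  finL : Finite L
  finR : Finite R
  finH : Finite H
  finH' : Finite H'
  neA : Nonempty A
  ep : L → Bool → Fin (h + 2) × A
  ep_ne : ∀ l b, ep l b ≠ ep l (!b)
  pv : V → A × H
  pv_inj : Function.Injective pv
  pe : G.edgeSet → A × H'
  pe_inj : Function.Injective pe
  path : ℕ → Inc G → A
  lk : Fin (h + 1) → Inc G → L
  rho : ℕ → Inc G → R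
  path_zero : ∀ i, path 0 i = (pv (vert i)).1
  path_last : ∀ i, path (h + 1) i = (pe i.1).1
  lk_false : ∀ j i, ep (lk j i) false = (j.castSucc, path j i)
  lk_true : ∀ j i, ep (lk j i) true = (j.succ, path (j + 1) i)
  rho_left : ∀ j ≤ h, ∀ i i', rho j i = rho j i' → path j i = path j i' → i = i'
  rho_right : ∀ j ≤ h, ∀ i i', rho j i = rho j i' → path (j + 1) i = path (j + 1) i' → i = i'

namespace Layout

variable {G : SimpleGraph V} (Λ : Layout G)

abbrev Row : Type := Pool.Agent.Helper59.PZ.Row Λ.R Λ.H Λ.H'

/-- columns: a level and a place -/
abbrev Col : Type := Fin (Λ.h + 2) × Λ.A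

/-- the row of the hop `j` of the incidence `i`: only the parity of `j` is recorded -/
def cr (j : ℕ) (i : Inc G) : Λ.Row := .comm j.bodd (Λ.rho j i)

open Classical in
/-- The links in use: a row `comm p ρ` uses the links `lk j i` of all hops `j` and incidences `i`
with `cr j i = comm p ρ`; the other rows use no links. -/
noncomputable def lab : Λ.Row → Λ.Col → Option (Λ.L × Bool)
  | .comm p ρ, y =>
      if h : ∃ z : Fin (Λ.h + 1) × Inc G, Λ.cr z.1 z.2 = .comm p ρ ∧
          y = (z.1.castSucc, Λ.path z.1 z.2) then
        some (Λ.lk h.choose.1 h.choose.2, false)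
      else if h : ∃ z : Fin (Λ.h + 1) × Inc G, Λ.cr z.1 z.2 = .comm p ρ ∧
          y = (z.1.succ, Λ.path (z.1 + 1) z.2) then
        some (Λ.lk h.choose.1 h.choose.2, true)
      else none
  | _, _ => none

/-- The names are vertices: the first colour of the home cell of a vertex, the first colour of the
two cells of every hop of every incidence of the vertex, and, for `b = false` and `b = true`, the
first and the second colour of the cells of the edges whose first or second end is the vertex. -/
def Nm (b : Bool) (x : Λ.Row) (y : Λ.Col) (v : V) : Prop :=
  (b = false ∧ x = .home (Λ.pv v).2 ∧ y = (0, (Λ.pv v).1)) ∨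
  (∃ (j : Fin (Λ.h + 1)) (i : Inc G), v = vert i ∧ x = Λ.cr j i ∧
    (y = (j.castSucc, Λ.path j i) ∨ y = (j.succ, Λ.path (j + 1) i))) ∨
  (∃ e : G.edgeSet, v = vert (e, b) ∧ x = .edge (Λ.pe e).2 ∧
    y = (Fin.last (Λ.h + 1), (Λ.pe e).1))

/-- a column -/
noncomputable def base : Λ.Col := (0, Classical.choice Λ.neA)

end Layout

end Pool.Agent.Helper59.PZ
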