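import Mathlib
import Pool.Agent.Helper59.PZ.LayDefs

/-!
The network of a layout: the links of the rows `comm p ρ`, the two columns of a link,
and the fields of the network.
-/

set_option autoImplicit false

namespace Pool.Agent.Helper59.PZ

variable {V : Type}

/-- The two ends of an edge, in the chosen order. -/
noncomputable def ends {G : SimpleGraph V} (e : G.edgeSet) : V × V := Quot.out e.1

theorem ends_eq {G : SimpleGraph V} (e : G.edgeSet) : s((ends e).1, (ends e).2) = e.1 :=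
  Quot.out_eq e.1

theorem adj_ends {G : SimpleGraph V} (e : G.edgeSet) : G.Adj (ends e).1 (ends e).2 := by
  rw [← SimpleGraph.mem_edgeSet, ends_eq]
  exact e.2

namespace Layout

variable {G : SimpleGraph V} (Λ : Layout G)

theorem ep_lk_false (j : Fin (Λ.h + 1)) (i : Inc G) :
    Λ.ep (Λ.lk j i) false = (j.castSucc, Λ.path j i) := Λ.lk_false j i

theorem ep_lk_true (j : Fin (Λ.h + 1)) (i : Inc G) :
    Λ.ep (Λ.lk j i) true = (j.succ, Λ.path (j + 1) i) := Λ.lk_true j i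

theorem two (y : Λ.Col) : ∃ y' : Λ.Col, y' ≠ y := by
  obtain ⟨m, a⟩ := y
  by_cases hm : m = 0
  · refine ⟨(Fin.last _, a), fun h => ?_⟩
    have h1 : Fin.last (Λ.h + 1) = m := congrArg Prod.fst h
    rw [hm] at h1
    exact absurd (congrArg Fin.val h1) (by simp)
  · exact ⟨(0, a), fun h => hm (congrArg Prod.fst h).symm⟩

open Classical in
private theorem lab_comm_eq (p : Bool) (ρ : Λ.R) (y : Λ.Col) :
    Λ.lab (.comm p ρ) y =
      if h : ∃ z : Fin (Λ.h + 1) × Inc G, Λ.cr z.1 z.2 = .comm p ρ ∧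
          y = (z.1.castSucc, Λ.path z.1 z.2) then
        some (Λ.lk h.choose.1 h.choose.2, false)
      else if h : ∃ z : Fin (Λ.h + 1) × Inc G, Λ.cr z.1 z.2 = .comm p ρ ∧
          y = (z.1.succ, Λ.path (z.1 + 1) z.2) then
        some (Λ.lk h.choose.1 h.choose.2, true)
      else none := rfl

/-- the hop and the incidence are determined by the row and the column where the hop starts -/
theorem cr_left (j j' : Fin (Λ.h + 1)) (i i' : Inc G) (h1 : Λ.cr j i = Λ.cr j' i')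
    (h2 : ((j.castSucc, Λ.path j i) : Λ.Col) = (j'.castSucc, Λ.path j' i')) : j = j' ∧ i = i' := by
  have h3 : j = j' := Fin.castSucc_injective _ (congrArg Prod.fst h2)
  subst h3
  have h4 : Λ.rho j i = Λ.rho j i' := (Row.comm.inj h1).2
  exact ⟨rfl, Λ.rho_left j (Nat.lt_succ_iff.1 j.2) _ _ h4 (congrArg Prod.snd h2)⟩

theorem cr_right (j j' : Fin (Λ.h + 1)) (i i' : Inc G) (h1 : Λ.cr j i = Λ.cr j' i')
    (h2 : ((j.succ, Λ.path (j + 1) i) : Λ.Col) = (j'.succ, Λ.path (j' + 1) i')) :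
    j = j' ∧ i = i' := by
  have h3 : j = j' := Fin.succ_injective _ (congrArg Prod.fst h2)
  subst h3
  have h4 : Λ.rho j i = Λ.rho j i' := (Row.comm.inj h1).2
  exact ⟨rfl, Λ.rho_right j (Nat.lt_succ_iff.1 j.2) _ _ h4 (congrArg Prod.snd h2)⟩

/-- a row of one parity is not used for a start and for an end in the same column -/
theorem cr_cross (j j' : Fin (Λ.h + 1)) (i i' : Inc G) (h1 : Λ.cr j i = Λ.cr j' i')
    (h2 : ((j.succ, Λ.path (j + 1) i) : Λ.Col) = (j'.castSucc, Λ.path j' i')) : False := by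
  have h3 : j.succ = j'.castSucc := congrArg Prod.fst h2
  have h4 : (j : ℕ) + 1 = j' := by
    have := congrArg Fin.val h3
    simpa using this
  have h5 : (j : ℕ).bodd = (j' : ℕ).bodd := (Row.comm.inj h1).1
  rw [← h4, Nat.bodd_succ] at h5
  cases h6 : (j : ℕ).bodd <;> rw [h6] at h5 <;> exact absurd h5 (by decide)

theorem lab_comm_left (j : Fin (Λ.h + 1)) (i : Inc G) :
    Λ.lab (Λ.cr j i) (j.castSucc, Λ.path j i) = some (Λ.lk j i, false) := by
  have h : ∃ z : Fin (Λ.h + 1) × Inc G, Λ.cr z.1 z.2 = .comm (j : ℕ).bodd (Λ.rho j i) ∧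
      ((j.castSucc, Λ.path j i) : Λ.Col) = (z.1.castSucc, Λ.path z.1 z.2) := ⟨(j, i), rfl, rfl⟩
  obtain ⟨h2, h3⟩ := Λ.cr_left _ _ _ _ h.choose_spec.1.symm h.choose_spec.2
  change Λ.lab (.comm (j : ℕ).bodd (Λ.rho j i)) _ = _
  rw [lab_comm_eq, dif_pos h, ← h2, ← h3]

theorem lab_comm_right (j : Fin (Λ.h + 1)) (i : Inc G) :
    Λ.lab (Λ.cr j i) (j.succ, Λ.path (j + 1) i) = some (Λ.lk j i, true) := by
  have h0 : ¬ ∃ z : Fin (Λ.h + 1) × Inc G, Λ.cr z.1 z.2 = .comm (j : ℕ).bodd (Λ.rho j i) ∧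
      ((j.succ, Λ.path (j + 1) i) : Λ.Col) = (z.1.castSucc, Λ.path z.1 z.2) := by
    rintro ⟨z, h1, h2⟩
    exact Λ.cr_cross _ _ _ _ h1.symm h2
  have h : ∃ z : Fin (Λ.h + 1) × Inc G, Λ.cr z.1 z.2 = .comm (j : ℕ).bodd (Λ.rho j i) ∧
      ((j.succ, Λ.path (j + 1) i) : Λ.Col) = (z.1.succ, Λ.path (z.1 + 1) z.2) := ⟨(j, i), rfl, rfl⟩
  obtain ⟨h2, h3⟩ := Λ.cr_right _ _ _ _ h.choose_spec.1.symm h.choose_spec.2
  change Λ.lab (.comm (j : ℕ).bodd (Λ.rho j i)) _ = _
  rw [lab_comm_eq, dif_neg h0, dif_pos h, ← h2, ← h3]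

theorem lab_comm_cases (p : Bool) (ρ : Λ.R) (y : Λ.Col) (l : Λ.L) (b : Bool)
    (hl : Λ.lab (.comm p ρ) y = some (l, b)) :
    ∃ (j : Fin (Λ.h + 1)) (i : Inc G), Row.comm p ρ = Λ.cr j i ∧ l = Λ.lk j i ∧
      ((b = false ∧ y = (j.castSucc, Λ.path j i)) ∨ (b = true ∧ y = (j.succ, Λ.path (j + 1) i))) := by
  rw [lab_comm_eq] at hl
  split_ifs at hl with h1 h2
  · rw [Option.some.injEq, Prod.mk.injEq] at hl
    exact ⟨_, _, h1.choose_spec.1.symm, hl.1.symm, Or.inl ⟨hl.2.symm, h1.choose_spec.2⟩⟩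
  · rw [Option.some.injEq, Prod.mk.injEq] at hl
    exact ⟨_, _, h2.choose_spec.1.symm, hl.1.symm, Or.inr ⟨hl.2.symm, h2.choose_spec.2⟩⟩

theorem lab_ep (x : Λ.Row) (y : Λ.Col) (l : Λ.L) (b : Bool) (hl : Λ.lab x y = some (l, b)) :
    Λ.ep l b = y := by
  cases x with
  | star => exact nomatch (show (none : Option (Λ.L × Bool)) = some (l, b) from hl)
  | home _ => exact nomatch (show (none : Option (Λ.L × Bool)) = some (l, b) from hl)
  | edge _ => exact nomatch (show (none : Option (Λ.L × Bool)) = some (l, b) from hl)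
  | comm p ρ =>
    obtain ⟨j, i, -, rfl, ⟨rfl, rfl⟩ | ⟨rfl, rfl⟩⟩ := Λ.lab_comm_cases p ρ y l b hl
    · exact Λ.ep_lk_false j i
    · exact Λ.ep_lk_true j i

theorem lab_sym (x : Λ.Row) (y : Λ.Col) (l : Λ.L) (b : Bool) (hl : Λ.lab x y = some (l, b)) :
    Λ.lab x (Λ.ep l (!b)) = some (l, !b) := by
  cases x with
  | star => exact nomatch (show (none : Option (Λ.L × Bool)) = some (l, b) from hl)
  | home _ => exact nomatch (show (none : Option (Λ.L × Bool)) = some (l, b) from hl)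
  | edge _ => exact nomatch (show (none : Option (Λ.L × Bool)) = some (l, b) from hl)
  | comm p ρ =>
    obtain ⟨j, i, h0, rfl, ⟨rfl, rfl⟩ | ⟨rfl, rfl⟩⟩ := Λ.lab_comm_cases p ρ y l b hl
    · rw [Bool.not_false, ep_lk_true, h0]
      exact Λ.lab_comm_right j i
    · rw [Bool.not_true, ep_lk_false, h0]
      exact Λ.lab_comm_left j i

theorem cr_uniq (j j' : Fin (Λ.h + 1)) (i i' : Inc G) (hr : Λ.cr j' i' = Λ.cr j i)
    (y : Λ.Col)
    (h : y = (j.castSucc, Λ.path j i) ∨ y = (j.succ, Λ.path (j + 1) i))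
    (h' : y = (j'.castSucc, Λ.path j' i') ∨ y = (j'.succ, Λ.path (j' + 1) i')) : i' = i := by
  rcases h with h | h <;> rcases h' with h' | h' <;> rw [h] at h'
  · exact (Λ.cr_left _ _ _ _ hr h'.symm).2
  · exact (Λ.cr_cross _ _ _ _ hr h'.symm).elim
  · exact (Λ.cr_cross _ _ _ _ hr.symm h').elim
  · exact (Λ.cr_right _ _ _ _ hr h'.symm).2

theorem Nm_uniq (b : Bool) (x : Λ.Row) (y : Λ.Col) (v v' : V) (h : Λ.Nm b x y v)
    (h' : Λ.Nm b x y v') : v = v' := by
  rcases h with ⟨-, hx, hy⟩ | ⟨j, i, hv, hx, hy⟩ | ⟨e, hv, hx, hy⟩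
  · rcases h' with ⟨-, hx', hy'⟩ | ⟨j', i', hv', hx', hy'⟩ | ⟨e', hv', hx', hy'⟩
    · have h1 : (Λ.pv v).2 = (Λ.pv v').2 := Row.home.inj (hx.symm.trans hx')
      have h2 : (Λ.pv v).1 = (Λ.pv v').1 := congrArg Prod.snd (hy.symm.trans hy')
      exact Λ.pv_inj (Prod.ext h2 h1)
    · exact nomatch hx.symm.trans hx'
    · exact nomatch hx.symm.trans hx'
  · rcases h' with ⟨-, hx', hy'⟩ | ⟨j', i', hv', hx', hy'⟩ | ⟨e', hv', hx', hy'⟩
    · exact nomatch hx.symm.trans hx'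
    · rw [hv, hv', Λ.cr_uniq j j' i i' (hx'.symm.trans hx) y hy hy']
    · exact nomatch hx.symm.trans hx'
  · rcases h' with ⟨-, hx', hy'⟩ | ⟨j', i', hv', hx', hy'⟩ | ⟨e', hv', hx', hy'⟩
    · exact nomatch hx.symm.trans hx'
    · exact nomatch hx.symm.trans hx'
    · have h1 : (Λ.pe e).2 = (Λ.pe e').2 := Row.edge.inj (hx.symm.trans hx')
      have h2 : (Λ.pe e).1 = (Λ.pe e').1 := congrArg Prod.snd (hy.symm.trans hy')
      rw [hv, hv', Λ.pe_inj (Prod.ext h2 h1)]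

/-- The network of a layout. -/
noncomputable def net : Network Λ.Row Λ.Col Λ.L V where
  ep := Λ.ep
  ep_ne := Λ.ep_ne
  lab := Λ.lab
  lab_ep := Λ.lab_ep
  lab_sym := Λ.lab_sym
  Nm := Λ.Nm
  Nm_uniq := Λ.Nm_uniq
  star := .star
  base := Λ.base
  lab_star := fun _ => rfl
  two := Λ.two

theorem look_false (x : Λ.Row) (y : Λ.Col) (w : Val) : Λ.net.look false x y w = fs w := by
  simp [Network.look]

theorem look_unlinked (b : Bool) (x : Λ.Row) (y : Λ.Col) (w : Val) (h : Λ.lab x y = none) :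
    Λ.net.look b x y w = if b = true then sn w else fs w := by
  have h1 : (Λ.net.lab x y).isNone = true := by
    change (Λ.lab x y).isNone = true
    rw [h]
    rfl
  simp [Network.look, h1]

theorem look_cr (b : Bool) (j : Fin (Λ.h + 1)) (i : Inc G) (y : Λ.Col) (w : Val)
    (h : y = (j.castSucc, Λ.path j i) ∨ y = (j.succ, Λ.path (j + 1) i)) :
    Λ.net.look b (Λ.cr j i) y w = fs w := by
  have h1 : (Λ.net.lab (Λ.cr j i) y).isNone = false := by
    change (Λ.lab (Λ.cr j i) y).isNone = false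
    rcases h with h | h
    · rw [h, Λ.lab_comm_left]
      rfl
    · rw [h, Λ.lab_comm_right]
      rfl
  simp [Network.look, h1]

/-- The set `E` of a layout. -/
abbrev Pt : Type := Pool.Agent.Helper59.PZ.Pt Λ.Row Λ.Col Λ.L

/-- The family of a layout. -/
def family : Set (Setoid Λ.Pt) := Λ.net.family

end Layout

end Pool.Agent.Helper59.PZ
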