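import Mathlib
import Pool.Agent.Helper59.PZ.LayNet

/-!
Cardinalities of the set of points, of the set of rows, and of the family.
-/

set_option autoImplicit false

namespace Pool.Agent.Helper59.PZ

theorem card_val : Nat.card Val = 6 := by
  rw [Nat.card_eq_fintype_card]
  decide

/-- the sorts of the points -/
private def ptEquiv (X Y L : Type) : Pt X Y L ≃
    Unit ⊕ Bool ⊕ X ⊕ Y ⊕ (Y × Val) ⊕ (L × Bool × Val) ⊕ (L × Bool × Val) where
  toFun
    | .zero => .inl ()
    | .r s => .inr (.inl s)
    | .row x => .inr (.inr (.inl x))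
    | .col y => .inr (.inr (.inr (.inl y)))
    | .pl y v => .inr (.inr (.inr (.inr (.inl (y, v)))))
    | .out l b v => .inr (.inr (.inr (.inr (.inr (.inl (l, b, v))))))
    | .inn l b v => .inr (.inr (.inr (.inr (.inr (.inr (l, b, v))))))
  invFun
    | .inl _ => .zero
    | .inr (.inl s) => .r s
    | .inr (.inr (.inl x)) => .row x
    | .inr (.inr (.inr (.inl y))) => .col y
    | .inr (.inr (.inr (.inr (.inl p)))) => .pl p.1 p.2
    | .inr (.inr (.inr (.inr (.inr (.inl p))))) => .out p.1 p.2.1 p.2.2
    | .inr (.inr (.inr (.inr (.inr (.inr p))))) => .inn p.1 p.2.1 p.2.2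
  left_inv p := by cases p <;> rfl
  right_inv p := by
    rcases p with _ | _ | _ | _ | _ | _ | _ <;> rfl

theorem finite_pt {X Y L : Type} [Finite X] [Finite Y] [Finite L] : Finite (Pt X Y L) :=
  Finite.of_equiv _ (ptEquiv X Y L).symm

theorem card_pt {X Y L : Type} [Finite X] [Finite Y] [Finite L] :
    Nat.card (Pt X Y L) = 3 + Nat.card X + 7 * Nat.card Y + 24 * Nat.card L := by
  rw [Nat.card_congr (ptEquiv X Y L), Nat.card_sum, Nat.card_sum, Nat.card_sum, Nat.card_sum,
    Nat.card_sum, Nat.card_sum, Nat.card_prod, Nat.card_prod, Nat.card_prod, card_val,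
    Nat.card_unique, Nat.card_eq_fintype_card (α := Bool), Fintype.card_bool]
  ring

/-- the sorts of the rows -/
private def rowEquiv (R H H' : Type) : Row R H H' ≃ Unit ⊕ (Bool × R) ⊕ H ⊕ H' where
  toFun
    | .star => .inl ()
    | .comm j t => .inr (.inl (j, t))
    | .home x => .inr (.inr (.inl x))
    | .edge x => .inr (.inr (.inr x))
  invFun
    | .inl _ => .star
    | .inr (.inl p) => .comm p.1 p.2
    | .inr (.inr (.inl x)) => .home x
    | .inr (.inr (.inr x)) => .edge x
  left_inv p := by cases p <;> rfl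
  right_inv p := by
    rcases p with _ | _ | _ | _ <;> rfl

theorem finite_row {R H H' : Type} [Finite R] [Finite H] [Finite H'] :
    Finite (Row R H H') :=
  Finite.of_equiv _ (rowEquiv R H H').symm

theorem card_row {R H H' : Type} [Finite R] [Finite H] [Finite H'] :
    Nat.card (Row R H H') = 1 + 2 * Nat.card R + Nat.card H + Nat.card H' := by
  rw [Nat.card_congr (rowEquiv R H H'), Nat.card_sum, Nat.card_sum, Nat.card_sum,
    Nat.card_prod, Nat.card_unique, Nat.card_eq_fintype_card (α := Bool), Fintype.card_bool]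
  ring

/-- the first points of the pairs with an arbitrary second point -/
private def src {X Y L M : Type} (N : Network X Y L M) : Fin 5 → Pt X Y L :=
  ![.zero, .r false, .r true, .row N.star, .col N.base]

/-- an indexing of the family -/
private def ixRel {X Y L M : Type} (N : Network X Y L M) :
    (Fin 5 × Pt X Y L) ⊕ (L × Bool × Val) ⊕ (L × Bool × Val) ⊕ L ⊕ (Bool × Y) →
      Setoid (Pt X Y L)
  | .inl (k, p) => N.cg (src N k) p
  | .inr (.inl (l, b, v)) => N.cg (.out l b v) (.inn l b v)
  | .inr (.inr (.inl (l, b, v))) => N.cg (.out l b v) (.pl (N.ep l b) v)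
  | .inr (.inr (.inr (.inl l))) => N.cg (.col (N.ep l false)) (.col (N.ep l true))
  | .inr (.inr (.inr (.inr (b, y)))) => N.cn b y

theorem family_ncard {X Y L M : Type} [Finite X] [Finite Y] [Finite L] (N : Network X Y L M) :
    N.family.ncard ≤ 7 * Nat.card (Pt X Y L) := by
  have hf : Finite (Pt X Y L) := finite_pt
  have h1 : N.family ⊆ (ixRel N) '' Set.univ := by
    rintro θ (⟨u, u', hs, rfl⟩ | ⟨b, y, rfl⟩)
    · cases hs with
      | zero => exact ⟨.inl (0, u'), Set.mem_univ _, rfl⟩
      | r s =>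
        cases s
        · exact ⟨.inl (1, u'), Set.mem_univ _, rfl⟩
        · exact ⟨.inl (2, u'), Set.mem_univ _, rfl⟩
      | star => exact ⟨.inl (3, u'), Set.mem_univ _, rfl⟩
      | base => exact ⟨.inl (4, u'), Set.mem_univ _, rfl⟩
      | inn l b v => exact ⟨.inr (.inl (l, b, v)), Set.mem_univ _, rfl⟩
      | pl l b v => exact ⟨.inr (.inr (.inl (l, b, v))), Set.mem_univ _, rfl⟩
      | link l => exact ⟨.inr (.inr (.inr (.inl l))), Set.mem_univ _, rfl⟩
    · exact ⟨.inr (.inr (.inr (.inr (b, y)))), Set.mem_univ _, rfl⟩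
  refine (Set.ncard_le_ncard h1 (Set.toFinite _)).trans
    ((Set.ncard_image_le Set.finite_univ).trans ?_)
  rw [Set.ncard_univ, Nat.card_sum, Nat.card_sum, Nat.card_sum, Nat.card_sum, Nat.card_prod,
    Nat.card_prod, Nat.card_prod, Nat.card_prod, card_val, Nat.card_eq_fintype_card (α := Bool),
    Fintype.card_bool, Nat.card_fin, card_pt]
  omega

end Pool.Agent.Helper59.PZ
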