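import Mathlib
import Pool.Agent.Helper59.PZ.LayNet

/-!
Numbers of incidences and edges.

PLAN. `ncard_vert_le`: the map `i ↦` other end of `i` is injective on the incidences of `v` and
maps to the neighbours of `v` (`ends_eq`, `adj_ends` from LayNet). `card_edge_le`:
`∑ deg = 2 |E|` (`SimpleGraph.sum_degrees_eq_twice_card_edges`), or map `e ↦ vert (e, false)` with
fibres of at most `D` elements.
-/

set_option autoImplicit false

namespace Pool.Agent.Helper59.PZ

variable {V : Type}

private theorem edge_eq {G : SimpleGraph V} {e e' : G.edgeSet}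
    (h : s((ends e).1, (ends e).2) = s((ends e').1, (ends e').2)) : e = e' := by
  rw [ends_eq, ends_eq] at h
  exact Subtype.ext h

theorem ncard_vert_le [Finite V] (G : SimpleGraph V) (D : ℕ)
    (hD : ∀ v, (G.neighborSet v).ncard ≤ D) (v : V) : {i : Inc G | vert i = v}.ncard ≤ D := by
  refine le_trans (Set.ncard_le_ncard_of_injOn
    (fun i : Inc G => if i.2 = true then (ends i.1).1 else (ends i.1).2) ?_ ?_
    (Set.toFinite _)) (hD v)
  · rintro ⟨e, b⟩ hi
    have h1 := adj_ends e
    cases b
    · have h2 : (ends e).1 = v := by simpa [vert, ends] using hi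
      rw [h2] at h1
      simpa using h1
    · have h2 : (ends e).2 = v := by simpa [vert, ends] using hi
      rw [h2] at h1
      simpa using h1.symm
  · rintro ⟨e, b⟩ hi ⟨e', b'⟩ hi' h
    have h1 := (adj_ends e).ne
    have h1' := (adj_ends e').ne
    cases b <;> cases b'
    · have h2 : (ends e).1 = v := by simpa [vert, ends] using hi
      have h2' : (ends e').1 = v := by simpa [vert, ends] using hi'
      have h3 : (ends e).2 = (ends e').2 := by simpa using h
      have h4 : e = e' := edge_eq (by rw [h2, h2', h3])
      rw [h4]
    · have h2 : (ends e).1 = v := by simpa [vert, ends] using hi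
      have h2' : (ends e').2 = v := by simpa [vert, ends] using hi'
      have h3 : (ends e).2 = (ends e').1 := by simpa using h
      have h4 : e = e' := edge_eq (by rw [h2, h2', h3, Sym2.eq_swap])
      rw [← h4] at h3
      exact absurd h3.symm h1
    · have h2 : (ends e).2 = v := by simpa [vert, ends] using hi
      have h2' : (ends e').1 = v := by simpa [vert, ends] using hi'
      have h3 : (ends e).1 = (ends e').2 := by simpa using h
      have h4 : e = e' := edge_eq (by rw [h2, h2', h3, Sym2.eq_swap])
      rw [← h4] at h3
      exact absurd h3 h1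
    · have h2 : (ends e).2 = v := by simpa [vert, ends] using hi
      have h2' : (ends e').2 = v := by simpa [vert, ends] using hi'
      have h3 : (ends e).1 = (ends e').1 := by simpa using h
      have h4 : e = e' := edge_eq (by rw [h2, h2', h3])
      rw [h4]

theorem card_edge_le [Finite V] (G : SimpleGraph V) (D : ℕ)
    (hD : ∀ v, (G.neighborSet v).ncard ≤ D) : Nat.card G.edgeSet ≤ (D + 1) * Nat.card V := by
  classical
  have := Fintype.ofFinite V
  have := Fintype.ofFinite G.edgeSet
  rw [Nat.card_eq_fintype_card, Nat.card_eq_fintype_card, ← Finset.card_univ, ← Finset.card_univ]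
  refine Finset.card_le_mul_card_image_of_maps_to (f := fun e : G.edgeSet => (ends e).1)
    (fun _ _ => Finset.mem_univ _) (D + 1) fun v _ => ?_
  have h1 : (Finset.univ.filter fun e : G.edgeSet => (ends e).1 = v).card =
      {e : G.edgeSet | (ends e).1 = v}.ncard := by
    rw [Set.ncard_eq_toFinset_card', Set.toFinset_setOf]
  rw [h1]
  refine le_trans (Set.ncard_le_ncard_of_injOn (t := {i : Inc G | vert i = v})
    (fun e : G.edgeSet => ((e, false) : Inc G)) ?_ ?_ (Set.toFinite _)) ?_
  · intro e he
    have h2 : (ends e).1 = v := he
    simpa [vert, ends] using h2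
  · intro e _ e' _ h
    exact (Prod.ext_iff.1 h).1
  · exact (ncard_vert_le G D hD v).trans (Nat.le_succ D)

end Pool.Agent.Helper59.PZ
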