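import Mathlib

/-!
Greedy edge colouring of a bipartite multigraph.

Every `i` conflicts with at most `2 (K - 1)` others (same `f` or same `g`), so a colour out
of `2 K` is free; induction over a finite set of already coloured elements.
-/

set_option autoImplicit false

namespace Pool.Agent.Helper59.PZ

private theorem Rho_card {I A : Type} [DecidableEq I] [DecidableEq A] [Finite I] (f : I → A)
    (K : ℕ) (hf : ∀ a, {i | f i = a}.ncard ≤ K) {a : I} {s : Finset I} (ha : a ∉ s) :
    (s.filter (fun i => f i = f a)).card + 1 ≤ K := by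
  have h1 : (insert a (s.filter (fun i => f i = f a))).card ≤ K := by
    rw [← Set.ncard_coe_finset]
    refine (Set.ncard_le_ncard ?_ (Set.toFinite _)).trans (hf (f a))
    intro x hx
    rw [Finset.mem_coe, Finset.mem_insert, Finset.mem_filter] at hx
    rcases hx with hx | hx
    · rw [hx]
      rfl
    · exact hx.2
  have h2 : a ∉ s.filter (fun i => f i = f a) := fun h => ha (Finset.mem_filter.1 h).1
  rwa [Finset.card_insert_of_notMem h2] at h1

private theorem Rho_upd {I A : Type} [DecidableEq I] [DecidableEq A] (f : I → A) {K : ℕ}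
    {a : I} {s : Finset I} (ha : a ∉ s) {ρ : I → Fin (2 * K)} {c : Fin (2 * K)}
    (hc : c ∉ (s.filter (fun i => f i = f a)).image ρ)
    (h : ∀ i ∈ s, ∀ i' ∈ s, ρ i = ρ i' → f i = f i' → i = i') :
    ∀ i ∈ insert a s, ∀ i' ∈ insert a s, Function.update ρ a c i = Function.update ρ a c i' →
      f i = f i' → i = i' := by
  have hne : ∀ i ∈ s, i ≠ a := by
    rintro i hi rfl
    exact ha hi
  have hc' : ∀ i ∈ s, f i = f a → ρ i ≠ c := by
    intro i hi hfi h'
    exact hc (Finset.mem_image.2 ⟨i, Finset.mem_filter.2 ⟨hi, hfi⟩, h'⟩)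
  intro i hi i' hi' hρ hff
  rcases Finset.mem_insert.1 hi with h1 | h1
  · rcases Finset.mem_insert.1 hi' with h2 | h2
    · rw [h1, h2]
    · exfalso
      rw [h1, Function.update_self, Function.update_of_ne (hne i' h2)] at hρ
      rw [h1] at hff
      exact hc' i' h2 hff.symm hρ.symm
  · rcases Finset.mem_insert.1 hi' with h2 | h2
    · exfalso
      rw [h2, Function.update_self, Function.update_of_ne (hne i h1)] at hρ
      rw [h2] at hff
      exact hc' i h1 hff hρ
    · rw [Function.update_of_ne (hne i h1), Function.update_of_ne (hne i' h2)] at hρ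
      exact h i h1 i' h2 hρ hff

theorem exists_rho {I A B : Type} [Finite I] (f : I → A) (g : I → B) (K : ℕ) (hK : 0 < K)
    (hf : ∀ a, {i | f i = a}.ncard ≤ K) (hg : ∀ a, {i | g i = a}.ncard ≤ K) :
    ∃ ρ : I → Fin (2 * K), (∀ i i', ρ i = ρ i' → f i = f i' → i = i') ∧
      (∀ i i', ρ i = ρ i' → g i = g i' → i = i') := by
  classical
  cases nonempty_fintype I
  have key : ∀ s : Finset I, ∃ ρ : I → Fin (2 * K),
      (∀ i ∈ s, ∀ i' ∈ s, ρ i = ρ i' → f i = f i' → i = i') ∧
      (∀ i ∈ s, ∀ i' ∈ s, ρ i = ρ i' → g i = g i' → i = i') := by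
    intro s
    induction s using Finset.induction_on with
    | empty =>
      exact ⟨fun _ => ⟨0, by omega⟩, fun i hi => absurd hi (Finset.notMem_empty i),
        fun i hi => absurd hi (Finset.notMem_empty i)⟩
    | insert a s ha ih =>
      obtain ⟨ρ, h1, h2⟩ := ih
      have hF := Rho_card f K hf ha
      have hG := Rho_card g K hg ha
      obtain ⟨c, hc⟩ : ∃ c : Fin (2 * K), c ∉ (s.filter (fun i => f i = f a)).image ρ ∪
          (s.filter (fun i => g i = g a)).image ρ := by
        by_contra h
        push Not at h
        have h3 : (Finset.univ : Finset (Fin (2 * K))).card ≤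
            ((s.filter (fun i => f i = f a)).image ρ ∪
              (s.filter (fun i => g i = g a)).image ρ).card :=
          Finset.card_le_card fun c _ => h c
        have h4 := Finset.card_union_le ((s.filter (fun i => f i = f a)).image ρ)
          ((s.filter (fun i => g i = g a)).image ρ)
        have h5 : ((s.filter (fun i => f i = f a)).image ρ).card ≤
          (s.filter (fun i => f i = f a)).card := Finset.card_image_le
        have h6 : ((s.filter (fun i => g i = g a)).image ρ).card ≤
          (s.filter (fun i => g i = g a)).card := Finset.card_image_le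
        rw [Finset.card_univ, Fintype.card_fin] at h3
        omega
      rw [Finset.mem_union, not_or] at hc
      exact ⟨Function.update ρ a c, Rho_upd f ha hc.1 h1, Rho_upd g ha hc.2 h2⟩
  obtain ⟨ρ, h1, h2⟩ := key Finset.univ
  exact ⟨ρ, fun i i' => h1 i (Finset.mem_univ i) i' (Finset.mem_univ i'),
    fun i i' => h2 i (Finset.mem_univ i) i' (Finset.mem_univ i')⟩

end Pool.Agent.Helper59.PZ
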