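import Mathlib
import Pool.Agent.Helper59.PZ.LayExA
import Pool.Agent.Helper59.PZ.Route

/-!
Vertices and edges are placed by cardinality.
-/

set_option autoImplicit false

namespace Pool.Agent.Helper59.PZ

variable {V : Type}

theorem exists_inj {B A H : Type} [Finite B] [Finite A] [Finite H]
    (h : Nat.card B ≤ Nat.card A * Nat.card H) : ∃ p : B → A × H, Function.Injective p := by
  classical
  have := Fintype.ofFinite B
  have := Fintype.ofFinite A
  have := Fintype.ofFinite H
  have h1 : Fintype.card B ≤ Fintype.card (A × H) := by
    rw [Fintype.card_prod, ← Nat.card_eq_fintype_card, ← Nat.card_eq_fintype_card,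
      ← Nat.card_eq_fintype_card]
    exact h
  obtain ⟨e⟩ := Function.Embedding.nonempty_of_card_le h1
  exact ⟨e, e.injective⟩

end Pool.Agent.Helper59.PZ
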