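import Mathlib

/-!
Exact halving: if the fibres of two maps have at most `2 D` elements, the set can be divided into
two parts which meet every fibre in at most `D` elements.
-/

set_option autoImplicit false

namespace Pool.Agent.Helper59.PZ

/-- an involution inside the fibres with at most one fixed point in every fibre -/
theorem exists_pairing {I A : Type} [Finite I] (f : I → A) :
    ∃ σ : I → I, (∀ i, σ (σ i) = i) ∧ (∀ i, f (σ i) = f i) ∧
      (∀ i i', f i = f i' → σ i = i → σ i' = i' → i = i') := by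
  classical
  have hfin : Fintype I := Fintype.ofFinite I
  have key : ∀ s : Finset I, ∃ σ : I → I, (∀ i, σ (σ i) = i) ∧ (∀ i, f (σ i) = f i) ∧
      (∀ i, i ∉ s → σ i = i) ∧
      (∀ i ∈ s, ∀ i' ∈ s, f i = f i' → σ i = i → σ i' = i' → i = i') := by
    intro s
    induction s using Finset.induction_on with
    | empty => exact ⟨id, fun _ => rfl, fun _ => rfl, fun _ _ => rfl, by simp⟩
    | insert a s ha ih =>
      obtain ⟨σ, h1, h2, h3, h4⟩ := ih
      by_cases hex : ∃ i0 ∈ s, f i0 = f a ∧ σ i0 = i0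
      · obtain ⟨i0, hi0, hf0, hs0⟩ := hex
        have hne : i0 ≠ a := fun h => ha (h ▸ hi0)
        have hsa : σ a = a := h3 a ha
        refine ⟨fun i => if i = a then i0 else if i = i0 then a else σ i, ?_, ?_, ?_, ?_⟩
        · intro i
          by_cases hia : i = a
          · subst hia; simp [hne]
          · by_cases hi : i = i0
            · subst hi; simp [hia]
            · have h5 : σ i ≠ a := fun h => hia (by rw [← h1 i, h, hsa])
              have h6 : σ i ≠ i0 := fun h => hi (by rw [← h1 i, h, hs0])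
              simp [hia, hi, h5, h6, h1]
        · intro i
          by_cases hia : i = a
          · subst hia; simp [hf0]
          · by_cases hi : i = i0
            · subst hi; simp [hia, hf0]
            · simp [hia, hi, h2]
        · intro i hi
          have hia : i ≠ a := fun h => hi (h ▸ Finset.mem_insert_self a s)
          have his : i ∉ s := fun h => hi (Finset.mem_insert_of_mem h)
          have hi0' : i ≠ i0 := fun h => his (h ▸ hi0)
          simp [hia, hi0', h3 i his]
        · intro i hi i' hi' hff hsi hsi'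
          have hia : i ≠ a := by
            rintro rfl
            simp [hne] at hsi
          have hia' : i' ≠ a := by
            rintro rfl
            simp [hne] at hsi'
          have hi0n : i ≠ i0 := by
            rintro rfl
            simp [hia, hne.symm] at hsi
          have hi0n' : i' ≠ i0 := by
            rintro rfl
            simp [hia', hne.symm] at hsi'
          simp only [hia, hia', hi0n, hi0n', if_false] at hsi hsi'
          exact h4 i (Finset.mem_of_mem_insert_of_ne hi hia) i'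
            (Finset.mem_of_mem_insert_of_ne hi' hia') hff hsi hsi'
      · refine ⟨σ, h1, h2, fun i hi => h3 i (fun h => hi (Finset.mem_insert_of_mem h)), ?_⟩
        intro i hi i' hi' hff hsi hsi'
        rcases Finset.mem_insert.1 hi with rfl | his
        · rcases Finset.mem_insert.1 hi' with rfl | his'
          · rfl
          · exact absurd ⟨i', his', hff.symm, hsi'⟩ hex
        · rcases Finset.mem_insert.1 hi' with rfl | his'
          · exact absurd ⟨i, his, hff, hsi⟩ hex
          · exact h4 i his i' his' hff hsi hsi'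
  obtain ⟨σ, h1, h2, _, h4⟩ := key Finset.univ
  exact ⟨σ, h1, h2, fun i i' => h4 i (Finset.mem_univ _) i' (Finset.mem_univ _)⟩

theorem exists_bool_of_involution {Q : Type} (s : Q → Q) (h1 : ∀ q, s (s q) = q)
    (h2 : ∀ q, s q ≠ q) : ∃ m : Q → Bool, ∀ q, m (s q) = !m q := by
  classical
  let : LinearOrder Q := linearOrderOfSTO (WellOrderingRel : Q → Q → Prop)
  refine ⟨fun q => decide (q < s q), fun q => ?_⟩
  change decide (s q < s (s q)) = !decide (q < s q)
  rw [h1]
  rcases lt_trichotomy q (s q) with h | h | h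
  · simp [h, h.le]
  · exact absurd h.symm (h2 q)
  · simp [h, h.le]

theorem exists_two_colouring_free {J : Type} (σ τ : Equiv.Perm J) (hσ : ∀ j, σ (σ j) = j)
    (hτ : ∀ j, τ (τ j) = j) (fσ : ∀ j, σ j ≠ j) (fτ : ∀ j, τ j ≠ j) :
    ∃ m : J → Bool, (∀ j, m (σ j) = !m j) ∧ (∀ j, m (τ j) = !m j) := by
  classical
  obtain ⟨π, hπ⟩ : ∃ π : Equiv.Perm J, π = τ * σ := ⟨_, rfl⟩
  have hself : ∀ j, π (π⁻¹ j) = j := by
    intro j
    rw [← Equiv.Perm.mul_apply, mul_inv_cancel, Equiv.Perm.one_apply]
  have hσπ : ∀ j, σ (π j) = π⁻¹ (σ j) := by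
    intro j
    rw [Equiv.Perm.eq_inv_iff_eq]
    simp [hπ, Equiv.Perm.mul_apply, hσ, hτ]
  have hσπ' : ∀ j, σ (π⁻¹ j) = π (σ j) := by
    intro j
    have := hσπ (π⁻¹ j)
    rw [hself] at this
    rw [this, hself]
  have hk : ∀ (k : ℕ) j, σ ((π ^ k) j) = (π⁻¹ ^ k) (σ j) := by
    intro k
    induction k with
    | zero => intro j; rfl
    | succ k ih =>
      intro j
      rw [pow_succ, Equiv.Perm.mul_apply, ih, hσπ, pow_succ, Equiv.Perm.mul_apply]
  have hk' : ∀ (k : ℕ) j, σ ((π⁻¹ ^ k) j) = (π ^ k) (σ j) := by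
    intro k
    induction k with
    | zero => intro j; rfl
    | succ k ih =>
      intro j
      rw [pow_succ, Equiv.Perm.mul_apply, ih, hσπ', pow_succ, Equiv.Perm.mul_apply]
  have hz : ∀ (k : ℤ) j, σ ((π ^ k) j) = (π ^ (-k)) (σ j) := by
    intro k j
    obtain ⟨n, rfl | rfl⟩ := k.eq_nat_or_neg
    · rw [zpow_natCast, hk, zpow_neg, zpow_natCast, inv_pow]
    · rw [neg_neg, zpow_neg, zpow_natCast, ← inv_pow, hk']
  have hno : ∀ j (k : ℤ), (π ^ k) j ≠ σ j := by
    intro j k hjk
    rcases Int.even_or_odd k with ⟨l, hl⟩ | ⟨l, hl⟩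
    · apply fσ ((π ^ l) j)
      rw [hz, ← hjk, hl, ← Equiv.Perm.mul_apply, ← zpow_add]
      congr 2
      ring
    · have h1 : σ ((π ^ l) j) = π ((π ^ l) j) := by
        rw [hz, ← hjk, hl, ← Equiv.Perm.mul_apply, ← zpow_add]
        have : -l + (2 * l + 1) = 1 + l := by ring
        rw [this, zpow_add, zpow_one, Equiv.Perm.mul_apply]
      apply fτ (σ ((π ^ l) j))
      have h2 : π ((π ^ l) j) = τ (σ ((π ^ l) j)) := by rw [hπ, Equiv.Perm.mul_apply]
      rw [← h2, ← h1]
  let S : Setoid J := Equiv.Perm.SameCycle.setoid π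
  have hcong : ∀ a b : J, S a b → S (σ a) (σ b) := by
    rintro a b ⟨k, hk⟩
    exact ⟨-k, by rw [← hz, hk]⟩
  let sb : Quotient S → Quotient S := Quotient.map σ hcong
  obtain ⟨m, hm⟩ := exists_bool_of_involution sb
    (by
      intro q
      induction q using Quotient.inductionOn with
      | h j => simp only [sb, Quotient.map_mk, hσ])
    (by
      intro q
      induction q using Quotient.inductionOn with
      | h j =>
        intro h
        have h1 : S (σ j) j := Quotient.exact h
        obtain ⟨k, hk⟩ := S.symm h1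
        exact hno j k hk)
  refine ⟨fun j => m (Quotient.mk S j), fun j => ?_, fun j => ?_⟩
  · have := hm (Quotient.mk S j)
    simpa only [sb, Quotient.map_mk] using this
  · have h1 : Quotient.mk S (τ j) = Quotient.mk S (σ j) := by
      apply Quotient.sound
      refine S.symm ⟨1, ?_⟩
      rw [zpow_one, hπ, Equiv.Perm.mul_apply, hσ]
    have := hm (Quotient.mk S j)
    change m (Quotient.mk S (τ j)) = !m (Quotient.mk S j)
    rw [h1]
    simpa only [sb, Quotient.map_mk] using this

theorem exists_two_colouring {I : Type} (σ τ : I → I) (hσ : ∀ i, σ (σ i) = i)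
    (hτ : ∀ i, τ (τ i) = i) :
    ∃ m : I → Bool, (∀ i, σ i ≠ i → m (σ i) = !m i) ∧ (∀ i, τ i ≠ i → m (τ i) = !m i) := by
  classical
  let dbl : (I → I) → I × Bool → I × Bool := fun s p => if s p.1 = p.1 then (p.1, !p.2) else (s p.1, p.2)
  have hinv : ∀ s : I → I, (∀ i, s (s i) = i) → Function.Involutive (dbl s) := by
    rintro s hs ⟨i, b⟩
    by_cases h : s i = i
    · simp [dbl, h]
    · have h' : s (s i) ≠ s i := by rw [hs]; exact fun e => h e.symm
      have h'' : ¬ (i = s i) := fun e => h e.symm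
      simp [dbl, h, hs, h'']
  have hfree : ∀ s : I → I, ∀ p, dbl s p ≠ p := by
    rintro s ⟨i, b⟩ h
    by_cases h1 : s i = i
    · simp [dbl, h1] at h
    · simp [dbl, h1] at h
  obtain ⟨m, hm1, hm2⟩ := exists_two_colouring_free
    (Function.Involutive.toPerm (dbl σ) (hinv σ hσ)) (Function.Involutive.toPerm (dbl τ) (hinv τ hτ))
    (hinv σ hσ) (hinv τ hτ) (hfree σ) (hfree τ)
  refine ⟨fun i => m (i, false), fun i hi => ?_, fun i hi => ?_⟩
  · have h := hm1 (i, false)
    have e : Function.Involutive.toPerm (dbl σ) (hinv σ hσ) (i, false) = (σ i, false) := by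
      change dbl σ (i, false) = _
      simp [dbl, hi]
    rw [e] at h
    exact h
  · have h := hm2 (i, false)
    have e : Function.Involutive.toPerm (dbl τ) (hinv τ hτ) (i, false) = (τ i, false) := by
      change dbl τ (i, false) = _
      simp [dbl, hi]
    rw [e] at h
    exact h

theorem half_fibre {I A : Type} [Finite I] (f : I → A) (σ : I → I) (m : I → Bool) (D : ℕ)
    (h1 : ∀ i, σ (σ i) = i) (h2 : ∀ i, f (σ i) = f i)
    (h3 : ∀ i i', f i = f i' → σ i = i → σ i' = i' → i = i')
    (hm : ∀ i, σ i ≠ i → m (σ i) = !m i) (a : A) (hf : {i | f i = a}.ncard ≤ 2 * D) (r : Bool) :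
    {i | f i = a ∧ m i = r}.ncard ≤ D := by
  classical
  have hA : {i | f i = a ∧ m i = r}.ncard ≤ {i | f i = a ∧ m i = !r}.ncard + 1 := by
    have hsub : {i | f i = a ∧ m i = r} ⊆
        {i | (f i = a ∧ m i = r) ∧ σ i ≠ i} ∪ {i | f i = a ∧ σ i = i} := by
      intro i hi
      by_cases h : σ i = i
      · exact Or.inr ⟨hi.1, h⟩
      · exact Or.inl ⟨hi, h⟩
    have hb : {i | (f i = a ∧ m i = r) ∧ σ i ≠ i}.ncard ≤ {i | f i = a ∧ m i = !r}.ncard := by
      refine Set.ncard_le_ncard_of_injOn σ ?_ ?_ (Set.toFinite _)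
      · rintro i ⟨⟨hi1, hi2⟩, hi3⟩
        refine ⟨by rw [h2, hi1], by rw [hm i hi3, hi2]⟩
      · intro i _ i' _ h
        rw [← h1 i, h, h1]
    have hc : {i | f i = a ∧ σ i = i}.ncard ≤ 1 := by
      rw [Set.ncard_le_one (Set.toFinite _)]
      rintro i ⟨hi1, hi2⟩ i' ⟨hi1', hi2'⟩
      exact h3 i i' (hi1.trans hi1'.symm) hi2 hi2'
    calc {i | f i = a ∧ m i = r}.ncard
        ≤ ({i | (f i = a ∧ m i = r) ∧ σ i ≠ i} ∪ {i | f i = a ∧ σ i = i}).ncard :=
          Set.ncard_le_ncard hsub (Set.toFinite _)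
      _ ≤ {i | (f i = a ∧ m i = r) ∧ σ i ≠ i}.ncard + {i | f i = a ∧ σ i = i}.ncard :=
          Set.ncard_union_le _ _
      _ ≤ _ := by omega
  have hsum : {i | f i = a ∧ m i = r}.ncard + {i | f i = a ∧ m i = !r}.ncard ≤ 2 * D := by
    rw [← Set.ncard_union_eq _ (Set.toFinite _) (Set.toFinite _)]
    · refine le_trans (Set.ncard_le_ncard ?_ (Set.toFinite _)) hf
      rintro i (hi | hi)
      · exact hi.1
      · exact hi.1
    · rw [Set.disjoint_left]
      rintro i ⟨_, hi⟩ ⟨_, hi'⟩
      rw [hi] at hi'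
      cases r <;> simp at hi'
  omega

theorem exists_halving {I A B : Type} [Finite I] (f : I → A) (g : I → B) (D : ℕ)
    (hf : ∀ a, {i | f i = a}.ncard ≤ 2 * D) (hg : ∀ a, {i | g i = a}.ncard ≤ 2 * D) :
    ∃ m : I → ZMod 2, (∀ a r, {i | f i = a ∧ m i = r}.ncard ≤ D) ∧
      (∀ a r, {i | g i = a ∧ m i = r}.ncard ≤ D) := by
  classical
  obtain ⟨σ, s1, s2, s3⟩ := exists_pairing f
  obtain ⟨τ, t1, t2, t3⟩ := exists_pairing g
  obtain ⟨m, m1, m2⟩ := exists_two_colouring σ τ s1 t1
  have hz : ∀ i (r : ZMod 2), (if m i = true then (1 : ZMod 2) else 0) = r → m i = decide (r = 1) := by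
    intro i r h
    cases hmi : m i
    · rw [hmi] at h
      subst h
      decide
    · rw [hmi] at h
      subst h
      decide
  refine ⟨fun i => if m i = true then 1 else 0, fun a r => ?_, fun a r => ?_⟩
  · refine le_trans (Set.ncard_le_ncard ?_ (Set.toFinite _))
      (half_fibre f σ m D s1 s2 s3 m1 a (hf a) (decide (r = 1)))
    rintro i ⟨hi1, hi2⟩
    exact ⟨hi1, hz i r hi2⟩
  · refine le_trans (Set.ncard_le_ncard ?_ (Set.toFinite _))
      (half_fibre g τ m D t1 t2 t3 m2 a (hg a) (decide (r = 1)))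
    rintro i ⟨hi1, hi2⟩
    exact ⟨hi1, hz i r hi2⟩

end Pool.Agent.Helper59.PZ
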