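import Mathlib
import Pool.Agent.Helper59.PZ.Rels

/-!
The relation `kD b y` of the names of the sort `b` in the column `y` is closed under the rules.
-/

set_option autoImplicit false

namespace Pool.Agent.Helper59.PZ

variable {X Y L M : Type}

namespace Network

variable (N : Network X Y L M)

open Classical in
theorem kD_cell (b : Bool) (x : X) (y y1 : Y) (v : Val) :
    N.kD b y (N.cell x y1 v) =
      if y1 = y then .inr (.inr (N.look b x y v)) else .inl .zero := by
  unfold cell
  cases hl : N.lab x y1 with
  | none =>
    by_cases hy : y1 = y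
    · subst hy
      simp [kD, look, hl]
    · simp [kD, hy]
  | some q =>
    obtain ⟨l, b'⟩ := q
    have h1 := N.lab_ep _ _ _ _ hl
    by_cases hy : y1 = y
    · subst hy
      simp [kD, look, hl, h1]
    · simp [kD, hy, h1]

open Classical in
private theorem invD_act (b : Bool) (y y1 : Y) (v : Val) {u : Pt X Y L} (hu : ∀ a, u ≠ .row a) :
    N.kD b y (N.act y1 v u) = Sum.elim (fun p => .inl p)
      (fun w => if y1 = y then .inr w else .inl .zero) (N.kD b y u) := by
  cases u with
  | zero => rfl
  | r s => rfl
  | row a => exact absurd rfl (hu a)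
  | col y' => rfl
  | pl y' w =>
    by_cases h1 : y' = y1
    · subst h1
      by_cases h2 : y' = y
      · simp [kD, act, h2]
      · simp [kD, act, h2]
    · by_cases h2 : y' = y
      · subst h2
        simp [kD, act, h1, Ne.symm h1]
      · simp [kD, act, h1, h2]
  | out l b' w =>
    by_cases h1 : N.ep l b' = y1
    · by_cases h2 : N.ep l b' = y
      · have h3 : y1 = y := h1.symm.trans h2
        subst h3
        simp [kD, act, h2]
      · have h3 : ¬ y1 = y := fun h => h2 (h1.trans h)
        simp [kD, act, h1, h3]
    · by_cases h2 : N.ep l b' = y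
      · have h3 : ¬ y1 = y := fun h => h1 (h2.trans h.symm)
        have h4 : ¬ y = y1 := fun h => h3 h.symm
        by_cases h5 : N.ep l (!b') = y1
        · simp [kD, act, h2, h3, h4, h5]
        · simp [kD, act, h2, h3, h4, h5]
      · by_cases h5 : N.ep l (!b') = y1
        · simp [kD, act, h1, h2, h5]
        · simp [kD, act, h1, h2, h5]
  | inn l b' w =>
    simp only [act]
    split_ifs <;> rfl

private theorem invD_row {b : Bool} {y : Y} {x : X} {u : Pt X Y L}
    (h : N.kD b y (.row x) = N.kD b y u) :
    ∃ x', u = .row x' ∧ (x' = x ∨ ∃ m, N.Nm b x y m ∧ N.Nm b x' y m) := by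
  classical
  by_cases hx : ∃ m, N.Nm b x y m
  · have h1 : N.kD b y (.row x) = .inr (.inl hx.choose) := by
      simp only [kD]
      rw [dif_pos hx]
    rw [h1] at h
    cases u with
    | zero => simp [kD] at h
    | r s => simp [kD] at h
    | col y' => simp [kD] at h
    | pl y' w => simp only [kD] at h; split_ifs at h <;> simp at h
    | out l b' w => simp only [kD] at h; split_ifs at h; simp at h
    | inn l b' w => simp [kD] at h
    | row x' =>
      refine ⟨x', rfl, Or.inr ?_⟩
      simp only [kD] at h
      split_ifs at h with h2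
      have h3 : hx.choose = h2.choose := Sum.inl.inj (Sum.inr.inj h)
      exact ⟨hx.choose, hx.choose_spec, h3 ▸ h2.choose_spec⟩
  · have h1 : N.kD b y (.row x) = .inl (.row x) := by
      simp only [kD]
      rw [dif_neg hx]
    rw [h1] at h
    cases u with
    | zero => simp [kD] at h
    | r s => simp [kD] at h
    | col y' => simp [kD] at h
    | pl y' w => simp only [kD] at h; split_ifs at h; simp at h
    | out l b' w => simp only [kD] at h; split_ifs at h; simp at h
    | inn l b' w => simp [kD] at h
    | row x' =>
      refine ⟨x', rfl, Or.inl ?_⟩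
      simp only [kD] at h
      split_ifs at h with h2
      exact (Pt.row.inj (Sum.inl.inj h)).symm

theorem inv_kD (b : Bool) (y : Y) : N.Inv (Setoid.ker (N.kD b y)) := by
  classical
  refine N.inv_ker (N.kD b y) ?_ ?_
  · intro y1 t h
    cases t with
    | zero => simp [kD] at h
    | r s => simp [kD] at h
    | row x =>
      obtain ⟨x', h1, -⟩ := N.invD_row h.symm
      simp at h1
    | col y' =>
      have h1 : y1 = y' := by simpa [kD] using h
      rw [h1]
    | pl y' w => simp only [kD] at h; split_ifs at h; simp at h
    | out l b' w => simp only [kD] at h; split_ifs at h; simp at h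
    | inn l b' w => simp [kD] at h
  · intro u u' y1 v w h hA
    by_cases hu : ∃ x, u = .row x
    · obtain ⟨x, rfl⟩ := hu
      obtain ⟨x', rfl, hx⟩ := N.invD_row h
      have hA1 := hA x x' rfl rfl
      show N.kD b y (N.cell x y1 v) = N.kD b y (N.cell x' y1 w)
      rw [kD_cell, kD_cell]
      by_cases hy : y1 = y
      · subst hy
        rw [if_pos rfl, if_pos rfl]
        rcases hx with hx | ⟨m, hm, hm'⟩
        · subst hx
          rw [hA1.1 rfl]
        · rw [hA1.2 b m hm hm']
      · rw [if_neg hy, if_neg hy]
    · have hu' : ∀ a, u ≠ .row a := fun a e => hu ⟨a, e⟩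
      have hu1 : ∀ a, u' ≠ .row a := by
        rintro a rfl
        obtain ⟨x', h1, -⟩ := N.invD_row h.symm
        exact hu' x' h1
      rw [N.invD_act b y y1 v hu', N.invD_act b y y1 w hu1, h]

end Network

end Pool.Agent.Helper59.PZ
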