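import Mathlib
import Pool.Agent.Helper59.PZ.Rels

/-!
The relation `kPsi y s` is closed under the rules: the class of `act z v p` is a function of `z` and of
the class of `p` (`psi_act`), and for `z = y` it is the class of `p` (`psi_fix`).
-/

set_option autoImplicit false

namespace Pool.Agent.Helper59.PZ

variable {X Y L M : Type} (N : Network X Y L M)

namespace Network

open Classical in
/-- the action of a column on the classes of `kPsi` -/
private noncomputable def psiF (y z : Y) : Pt X Y L ⊕ Option L → Pt X Y L ⊕ Option L
  | .inl p => .inl p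
  | .inr none => if z = y then .inr none else .inl .zero
  | .inr (some l) => if ∃ b, N.ep l b = z then .inr (some l) else .inl .zero

private theorem psi_bool (l : L) (b : Bool) (z : Y) :
    (∃ b', N.ep l b' = z) ↔ (N.ep l b = z ∨ N.ep l (!b) = z) := by
  constructor
  · rintro ⟨b', h⟩
    by_cases hb : b' = b
    · subst hb; exact Or.inl h
    · have : b' = !b := by cases b <;> cases b' <;> simp_all
      subst this; exact Or.inr h
  · rintro (h | h)
    · exact ⟨_, h⟩
    · exact ⟨_, h⟩

private theorem psi_out (y z : Y) (s : Bool) (v : Val) (l : L) (b : Bool) (w : Val) :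
    N.kPsi y s (N.act z v (.out l b w)) = N.psiF y z (N.kPsi y s (.out l b w)) := by
  by_cases h : N.ep l b = y ∨ N.ep l (!b) = y
  · have hk : N.kPsi y s (.out l b w) = .inr (some l) := by simp only [kPsi, if_pos h]
    rw [hk]
    by_cases h1 : N.ep l b = z
    · simp only [act, if_pos h1, psiF, if_pos (⟨b, h1⟩ : ∃ b, N.ep l b = z)]
      exact hk
    · by_cases h2 : N.ep l (!b) = z
      · simp only [act, if_neg h1, if_pos h2, psiF, if_pos (⟨!b, h2⟩ : ∃ b, N.ep l b = z)]
        have h' : N.ep l (!b) = y ∨ N.ep l (!!b) = y := by rw [Bool.not_not]; exact h.symm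
        simp only [kPsi, if_pos h']
      · have h3 : ¬ ∃ b, N.ep l b = z := by
          rw [psi_bool N l b]; exact not_or.2 ⟨h1, h2⟩
        simp only [act, if_neg h1, if_neg h2, psiF, if_neg h3, kPsi]
  · have hk : N.kPsi y s (.out l b w) = .inl .zero := by simp only [kPsi, if_neg h]
    rw [hk]
    by_cases h1 : N.ep l b = z
    · simp only [act, if_pos h1, psiF]
      exact hk
    · by_cases h2 : N.ep l (!b) = z
      · simp only [act, if_neg h1, if_pos h2, psiF]
        have h' : ¬ (N.ep l (!b) = y ∨ N.ep l (!!b) = y) := by
          rw [Bool.not_not]; exact fun q => h q.symm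
        simp only [kPsi, if_neg h']
      · simp only [act, if_neg h1, if_neg h2, psiF, kPsi]

private theorem psi_inn (y z : Y) (s : Bool) (v : Val) (l : L) (b : Bool) (w : Val) :
    N.kPsi y s (N.act z v (.inn l b w)) = N.psiF y z (N.kPsi y s (.inn l b w)) := by
  by_cases h : N.ep l b = y ∨ N.ep l (!b) = y
  · have hk : N.kPsi y s (.inn l b w) = .inr (some l) := by simp only [kPsi, if_pos h]
    rw [hk]
    by_cases h1 : N.ep l b = z
    · simp only [act, if_pos h1, psiF, if_pos (⟨b, h1⟩ : ∃ b, N.ep l b = z)]
      exact hk
    · by_cases h2 : N.ep l (!b) = z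
      · simp only [act, if_neg h1, if_pos h2, psiF, if_pos (⟨!b, h2⟩ : ∃ b, N.ep l b = z)]
        have h' : N.ep l (!b) = y ∨ N.ep l (!!b) = y := by rw [Bool.not_not]; exact h.symm
        simp only [kPsi, if_pos h']
      · have h3 : ¬ ∃ b, N.ep l b = z := by
          rw [psi_bool N l b]; exact not_or.2 ⟨h1, h2⟩
        simp only [act, if_neg h1, if_neg h2, psiF, if_neg h3, kPsi]
  · have hk : N.kPsi y s (.inn l b w) = .inl .zero := by simp only [kPsi, if_neg h]
    rw [hk]
    by_cases h1 : N.ep l b = z
    · simp only [act, if_pos h1, psiF]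
      exact hk
    · by_cases h2 : N.ep l (!b) = z
      · simp only [act, if_neg h1, if_pos h2, psiF]
        have h' : ¬ (N.ep l (!b) = y ∨ N.ep l (!!b) = y) := by
          rw [Bool.not_not]; exact fun q => h q.symm
        simp only [kPsi, if_neg h']
      · simp only [act, if_neg h1, if_neg h2, psiF, kPsi]

private theorem psi_pl (y z : Y) (s : Bool) (v : Val) (y' : Y) (w : Val) :
    N.kPsi y s (N.act z v (.pl y' w)) = N.psiF y z (N.kPsi y s (.pl y' w)) := by
  by_cases h : y' = y
  · subst h
    by_cases h1 : y' = z
    · subst h1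
      simp [act, kPsi, psiF]
    · simp [act, kPsi, psiF, h1, Ne.symm h1]
  · by_cases h1 : y' = z
    · subst h1
      simp [act, kPsi, psiF, h]
    · simp [act, kPsi, psiF, h, h1]

private theorem psi_row (y z : Y) (s : Bool) (v : Val) (x : X) :
    N.kPsi y s (N.act z v (.row x)) = N.psiF y z (N.kPsi y s (.row x)) := by
  have hk : N.kPsi y s (.row x) = .inr ((N.lab x y).map Prod.fst) := rfl
  have ha : N.act z v (.row x) = N.cell x z v := rfl
  rw [hk, ha]
  by_cases hzy : z = y
  · subst hzy
    rcases hl : N.lab x z with _ | ⟨l, b⟩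
    · simp [cell, hl, kPsi, psiF]
    · have he := N.lab_ep x z l b hl
      have h3 : ∃ b, N.ep l b = z := ⟨b, he⟩
      simp only [cell, hl, kPsi, psiF, Option.map_some, if_pos h3, he, true_or, if_true]
  · rcases hz : N.lab x z with _ | ⟨l', b'⟩
    · have hc : N.kPsi y s (N.cell x z v) = .inl .zero := by
        simp [cell, hz, kPsi, hzy]
      rw [hc]
      rcases hl : N.lab x y with _ | ⟨l, b⟩
      · simp [psiF, hzy]
      · have he := N.lab_ep x y l b hl
        have hs := N.lab_sym x y l b hl
        have h3 : ¬ ∃ b, N.ep l b = z := by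
          rw [psi_bool N l b]
          rintro (h | h)
          · exact hzy (h.symm.trans he)
          · rw [h, hz] at hs
            exact absurd hs (by simp)
        simp only [Option.map_some, psiF, if_neg h3]
    · have he' := N.lab_ep x z l' b' hz
      have hs' := N.lab_sym x z l' b' hz
      by_cases hy : N.ep l' (!b') = y
      · rw [hy] at hs'
        have hc : N.kPsi y s (N.cell x z v) = .inr (some l') := by
          simp only [cell, hz, kPsi, hy, or_true, if_true]
        have h3 : ∃ b, N.ep l' b = z := ⟨b', he'⟩
        rw [hc, hs']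
        simp only [Option.map_some, psiF, if_pos h3]
      · have hc : N.kPsi y s (N.cell x z v) = .inl .zero := by
          have h4 : ¬ (N.ep l' b' = y ∨ N.ep l' (!b') = y) := by
            rintro (h | h)
            · exact hzy (he'.symm.trans h)
            · exact hy h
          simp only [cell, hz, kPsi, if_neg h4]
        rw [hc]
        rcases hl : N.lab x y with _ | ⟨l, b⟩
        · simp [psiF, hzy]
        · have he := N.lab_ep x y l b hl
          have hs := N.lab_sym x y l b hl
          have h3 : ¬ ∃ b, N.ep l b = z := by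
            rw [psi_bool N l b]
            rintro (h | h)
            · exact hzy (h.symm.trans he)
            · rw [h, hz] at hs
              have h5 : l' = l ∧ b' = !b := by simpa using hs
              apply hy
              rw [h5.1, h5.2, Bool.not_not]
              exact he
          simp only [Option.map_some, psiF, if_neg h3]

private theorem psi_act (y z : Y) (s : Bool) (v : Val) (p : Pt X Y L) :
    N.kPsi y s (N.act z v p) = N.psiF y z (N.kPsi y s p) := by
  cases p with
  | zero => rfl
  | r s' => rfl
  | row x => exact N.psi_row y z s v x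
  | col y' =>
    by_cases h : y' = y
    · simp [act, kPsi, psiF, h]
    · simp [act, kPsi, psiF, h]
  | pl y' w => exact N.psi_pl y z s v y' w
  | out l b w => exact N.psi_out y z s v l b w
  | inn l b w => exact N.psi_inn y z s v l b w

private theorem psi_fix (y : Y) (s : Bool) (p : Pt X Y L) :
    N.psiF y y (N.kPsi y s p) = N.kPsi y s p := by
  cases p with
  | zero => rfl
  | r s' => rfl
  | row x =>
    rcases hl : N.lab x y with _ | ⟨l, b⟩
    · simp [kPsi, psiF, hl]
    · have h3 : ∃ b, N.ep l b = y := ⟨b, N.lab_ep x y l b hl⟩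
      simp only [kPsi, hl, Option.map_some, psiF, if_pos h3]
  | col y' =>
    by_cases h : y' = y
    · simp [kPsi, psiF, h]
    · simp [kPsi, psiF, h]
  | pl y' w =>
    by_cases h : y' = y
    · simp [kPsi, psiF, h]
    · simp [kPsi, psiF, h]
  | out l b w =>
    by_cases h : N.ep l b = y ∨ N.ep l (!b) = y
    · have h3 : ∃ b, N.ep l b = y := (psi_bool N l b y).2 h
      simp only [kPsi, if_pos h, psiF, if_pos h3]
    · simp only [kPsi, if_neg h, psiF]
  | inn l b w =>
    by_cases h : N.ep l b = y ∨ N.ep l (!b) = y
    · have h3 : ∃ b, N.ep l b = y := (psi_bool N l b y).2 h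
      simp only [kPsi, if_pos h, psiF, if_pos h3]
    · simp only [kPsi, if_neg h, psiF]

private theorem psi_col (y : Y) (s : Bool) (y' : Y) (t : Pt X Y L) (h : y' ≠ y)
    (ht : N.kPsi y s (.col y') = N.kPsi y s t) : t = .col y' := by
  have hk : N.kPsi y s (.col y') = .inl (.col y') := by simp only [kPsi, if_neg h]
  rw [hk] at ht
  cases t with
  | zero => simp [kPsi] at ht
  | r s' => simp [kPsi] at ht
  | row x => simp [kPsi] at ht
  | col y'' =>
    by_cases h1 : y'' = y
    · simp [kPsi, h1] at ht
    · simp only [kPsi, if_neg h1, Sum.inl.injEq, Pt.col.injEq] at ht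
      rw [ht]
  | pl y'' w => by_cases h1 : y'' = y <;> simp [kPsi, h1] at ht
  | out l b w => by_cases h1 : N.ep l b = y ∨ N.ep l (!b) = y <;> simp [kPsi, h1] at ht
  | inn l b w => by_cases h1 : N.ep l b = y ∨ N.ep l (!b) = y <;> simp [kPsi, h1] at ht

theorem inv_kPsi (y : Y) (s : Bool) : N.Inv (Setoid.ker (N.kPsi y s)) := by
  intro u u' a a' h hr
  have h' : N.kPsi y s u = N.kPsi y s u' := h
  cases hr with
  | left _ _ z v w _ =>
    show N.kPsi y s _ = N.kPsi y s _
    rw [psi_act, psi_act, h']
  | right z z' p v w _ =>
    show N.kPsi y s _ = N.kPsi y s _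
    have e : z = z' := by
      by_cases hz : z = y
      · by_cases hz' : z' = y
        · rw [hz, hz']
        · have := N.psi_col y s z' (.col z) hz' h'.symm
          simpa using this
      · have := N.psi_col y s z (.col z') hz h'
        exact (by simpa using this : z' = z).symm
    subst e
    rw [psi_act, psi_act]
  | inert z t p v ht =>
    show N.kPsi y s _ = N.kPsi y s _
    by_cases hz : z = y
    · subst hz
      rw [psi_act, psi_fix]
    · exact absurd (N.psi_col y s z _ hz h') (ht z)

end Network

end Pool.Agent.Helper59.PZ
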