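import Mathlib
import Pool.Agent.Helper59.PZ.Rels

/-!
The relation `kXi x y` is closed under the rules.

The class `inr 0` is the row `x` and the values of the cell `(x, y)`. If `lab x y = none`: column `y` keeps
the class, every other column sends it to the class of zero. If `lab x y = some (l, b)`, so `ep l b = y`, and
`z = ep l (!b)`: column `y` keeps class 0 and sends the classes 1 and 2 to class 2; column `z` sends everything to
class 1; all other columns send everything to the class of zero (`InvXi_G`).
-/

set_option autoImplicit false

namespace Pool.Agent.Helper59.PZ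

variable {X Y L M : Type} (N : Network X Y L M)

namespace Network

open Classical in
/-- the action of the column `y'` on the classes -/
private noncomputable def InvXi_G (x : X) (y y' : Y) : Pt X Y L ⊕ Fin 3 → Pt X Y L ⊕ Fin 3
  | .inl p => .inl p
  | .inr i => match N.lab x y with
    | none => if y' = y then .inr i else .inl .zero
    | some (l, b) => if y' = y then (if i = 0 then .inr 0 else .inr 2)
        else if y' = N.ep l (!b) then .inr 1 else .inl .zero

private theorem InvXi_key (x : X) (y : Y) (u : Pt X Y L) (hu : ∀ x₁, u = .row x₁ → x₁ = x)
    (y' : Y) (v : Val) : N.kXi x y (N.act y' v u) = N.InvXi_G x y y' (N.kXi x y u) := by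
  classical
  cases hlab : N.lab x y with
  | none =>
    cases u with
    | zero => simp [Network.act, Network.kXi, InvXi_G]
    | r s => simp [Network.act, Network.kXi, InvXi_G]
    | row x₁ =>
      obtain rfl := hu x₁ rfl
      by_cases hy : y' = y
      · subst hy
        simp [Network.act, Network.cell, Network.kXi, InvXi_G, hlab]
      · cases hl : N.lab x₁ y' with
        | none => simp [Network.act, Network.cell, Network.kXi, InvXi_G, hlab, hl, hy]
        | some q =>
          obtain ⟨l', b'⟩ := q
          simp [Network.act, Network.cell, Network.kXi, InvXi_G, hlab, hl, hy]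
    | col y₁ => simp [Network.act, Network.kXi, InvXi_G]
    | pl y₁ w =>
      by_cases hy : y₁ = y' <;> by_cases hy2 : y₁ = y <;> by_cases hy3 : y' = y <;>
        simp_all [Network.act, Network.kXi, InvXi_G]
    | out l b w =>
      by_cases h1 : N.ep l b = y' <;> by_cases h2 : N.ep l (!b) = y' <;>
        simp_all [Network.act, Network.kXi, InvXi_G]
    | inn l b w =>
      by_cases h1 : N.ep l b = y' <;> by_cases h2 : N.ep l (!b) = y' <;>
        simp_all [Network.act, Network.kXi, InvXi_G]
  | some q =>
    obtain ⟨l, b⟩ := q
    have hep := N.lab_ep x y l b hlab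
    have hne := N.ep_ne l b
    have hsym := N.lab_sym x y l b hlab
    cases u with
    | zero => simp [Network.act, Network.kXi, InvXi_G]
    | r s => simp [Network.act, Network.kXi, InvXi_G]
    | row x₁ =>
      obtain rfl := hu x₁ rfl
      by_cases hy : y' = y
      · subst hy
        simp [Network.act, Network.cell, Network.kXi, InvXi_G, hlab]
      · by_cases hz : y' = N.ep l (!b)
        · subst hz
          simp [Network.act, Network.cell, Network.kXi, InvXi_G, hlab, hsym, hy]
        · cases hl : N.lab x₁ y' with
          | none => simp [Network.act, Network.cell, Network.kXi, InvXi_G, hlab, hl, hy, hz]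
          | some q =>
            obtain ⟨l', b'⟩ := q
            have hep' := N.lab_ep x₁ y' l' b' hl
            have n1 : ¬ (l = l' ∧ b = b') := by
              rintro ⟨rfl, rfl⟩
              exact hy (hep'.symm.trans hep)
            have n2 : ¬ (l = l' ∧ b = !b') := by
              rintro ⟨rfl, rfl⟩
              apply hz
              rw [Bool.not_not]
              exact hep'.symm
            simp [Network.act, Network.cell, Network.kXi, InvXi_G, hlab, hl, hy, hz, n1, n2]
    | col y₁ => simp [Network.act, Network.kXi, InvXi_G]
    | pl y₁ w =>
      by_cases hy : y₁ = y' <;> simp [Network.act, Network.kXi, InvXi_G, hlab, hy]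
    | out l' b' w =>
      subst hep
      by_cases hll : l' = l
      · subst hll
        have hb : b' = b ∨ b' = !b := by cases b <;> cases b' <;> simp
        rcases hb with rfl | rfl
        · by_cases h1 : N.ep l' b' = y'
          · subst h1
            simp [Network.act, Network.kXi, InvXi_G, hlab]
          · by_cases h2 : N.ep l' (!b') = y'
            · subst h2
              simp [Network.act, Network.kXi, InvXi_G, hlab, hne, hne.symm]
            · simp [Network.act, Network.kXi, InvXi_G, hlab, h1, h2, Ne.symm h1, Ne.symm h2]
        · by_cases h1 : N.ep l' b = y'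
          · subst h1
            simp [Network.act, Network.kXi, InvXi_G, hlab, hne, hne.symm]
          · by_cases h2 : N.ep l' (!b) = y'
            · subst h2
              simp [Network.act, Network.kXi, InvXi_G, hlab, hne, hne.symm]
            · simp [Network.act, Network.kXi, InvXi_G, hlab, h1, h2, Ne.symm h1, Ne.symm h2]
      · have hll' : ¬ l = l' := fun h => hll h.symm
        by_cases h1 : N.ep l' b' = y'
        · simp [Network.act, Network.kXi, InvXi_G, hlab, hll', h1]
        · by_cases h2 : N.ep l' (!b') = y'
          · simp [Network.act, Network.kXi, InvXi_G, hlab, hll', h1, h2]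
          · simp [Network.act, Network.kXi, InvXi_G, hlab, hll', h1, h2]
    | inn l' b' w =>
      subst hep
      by_cases hll : l' = l
      · subst hll
        have hb : b' = b ∨ b' = !b := by cases b <;> cases b' <;> simp
        rcases hb with rfl | rfl
        · by_cases h1 : N.ep l' b' = y'
          · subst h1
            simp [Network.act, Network.kXi, InvXi_G, hlab]
          · by_cases h2 : N.ep l' (!b') = y'
            · subst h2
              simp [Network.act, Network.kXi, InvXi_G, hlab, hne, hne.symm]
            · simp [Network.act, Network.kXi, InvXi_G, hlab, h1, h2, Ne.symm h1, Ne.symm h2]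
        · by_cases h1 : N.ep l' b = y'
          · subst h1
            simp [Network.act, Network.kXi, InvXi_G, hlab, hne, hne.symm]
          · by_cases h2 : N.ep l' (!b) = y'
            · subst h2
              simp [Network.act, Network.kXi, InvXi_G, hlab, hne, hne.symm]
            · simp [Network.act, Network.kXi, InvXi_G, hlab, h1, h2, Ne.symm h1, Ne.symm h2]
      · have hll' : ¬ l = l' := fun h => hll h.symm
        by_cases h1 : N.ep l' b' = y'
        · simp [Network.act, Network.kXi, InvXi_G, hlab, hll', h1]
        · by_cases h2 : N.ep l' (!b') = y'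
          · simp [Network.act, Network.kXi, InvXi_G, hlab, hll', h1, h2]
          · simp [Network.act, Network.kXi, InvXi_G, hlab, hll', h1, h2]

private theorem InvXi_row (x : X) (y : Y) (x₁ : X) (h : x₁ ≠ x) (u : Pt X Y L)
    (hu : N.kXi x y u = N.kXi x y (.row x₁)) : u = .row x₁ := by
  classical
  cases u <;> simp only [Network.kXi, h, if_false] at hu <;> (try split_ifs at hu) <;> simp_all

theorem inv_kXi (x : X) (y : Y) : N.Inv (Setoid.ker (N.kXi x y)) := by
  classical
  refine N.inv_ker _ ?_ ?_
  · intro y' t ht
    cases t <;> simp only [Network.kXi] at ht <;> (try split_ifs at ht) <;> simp_all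
  · intro u u' y' v w huu hal
    by_cases h1 : ∃ x₁, u = .row x₁ ∧ x₁ ≠ x
    · obtain ⟨x₁, rfl, hx⟩ := h1
      have h2 := N.InvXi_row x y x₁ hx u' huu.symm
      subst h2
      rw [(hal x₁ x₁ rfl rfl).1 rfl]
    · by_cases h2 : ∃ x₁, u' = .row x₁ ∧ x₁ ≠ x
      · obtain ⟨x₁, rfl, hx⟩ := h2
        have h3 := N.InvXi_row x y x₁ hx u huu
        exact absurd ⟨x₁, h3, hx⟩ h1
      · rw [N.InvXi_key x y u (fun x₁ hx => by_contra fun hn => h1 ⟨x₁, hx, hn⟩),
          N.InvXi_key x y u' (fun x₁ hx => by_contra fun hn => h2 ⟨x₁, hx, hn⟩), huu]

end Network

end Pool.Agent.Helper59.PZ
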