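import Mathlib
import Pool.Agent.Helper59.PZ.LayNet

/-!
A valid choice of values for the network of a layout gives a 3-colouring.

The colour of a vertex is the first colour of its cell in its home row. Along every incidence the first colour is
preserved by all hops, so the value of the cell of an edge consists of the colours of the two ends.
-/

set_option autoImplicit false

namespace Pool.Agent.Helper59.PZ

variable {V : Type}

namespace Layout

variable {G : SimpleGraph V} (Λ : Layout G)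

/-- the colour of a vertex -/
private def lva_col (c : Λ.Row → Λ.Col → Val) (v : V) : Fin 3 :=
  fs (c (.home (Λ.pv v).2) (0, (Λ.pv v).1))

private theorem lva_hop (c : Λ.Row → Λ.Col → Val) (hc : Λ.net.Valid c) (j : Fin (Λ.h + 1))
    (i : Inc G) : c (Λ.cr j i) (j.castSucc, Λ.path j i) =
      c (Λ.cr j i) (j.succ, Λ.path (j + 1) i) := by
  have h1 := hc.1 (Λ.cr j i) (j.castSucc, Λ.path j i) (Λ.lk j i) false
    (Λ.lab_comm_left j i)
  have h2 : Λ.net.ep (Λ.lk j i) (!false) = (j.succ, Λ.path (j + 1) i) := Λ.ep_lk_true j i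
  rw [h2] at h1
  exact h1

private theorem lva_level (c : Λ.Row → Λ.Col → Val) (hc : Λ.net.Valid c) (i : Inc G) (j : ℕ) :
    ∀ hj : j < Λ.h + 1, fs (c (Λ.cr j i)
      ((⟨j, hj⟩ : Fin (Λ.h + 1)).castSucc, Λ.path j i)) = Λ.lva_col c (vert i) := by
  induction j with
  | zero =>
    intro hj
    have h1 := hc.2 false (.home (Λ.pv (vert i)).2) (Λ.cr 0 i) (0, Λ.path 0 i) (vert i)
      (Or.inl ⟨rfl, rfl, by rw [Λ.path_zero i]⟩) (Or.inr (Or.inl ⟨0, i, rfl, rfl, Or.inl rfl⟩))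
    rw [Λ.look_false, Λ.look_false] at h1
    unfold lva_col
    rw [← Λ.path_zero i, h1]
    rfl
  | succ j ih =>
    intro hj
    have hj' : j < Λ.h + 1 := by omega
    have h2 := Λ.lva_hop c hc ⟨j, hj'⟩ i
    rw [← ih hj', h2]
    have h3 := hc.2 false (Λ.cr j i) (Λ.cr (j + 1) i)
      ((⟨j, hj'⟩ : Fin (Λ.h + 1)).succ, Λ.path (j + 1) i) (vert i)
      (Or.inr (Or.inl ⟨⟨j, hj'⟩, i, rfl, rfl, Or.inr rfl⟩))
      (Or.inr (Or.inl ⟨⟨j + 1, hj⟩, i, rfl, rfl, Or.inl rfl⟩))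
    rw [Λ.look_false, Λ.look_false] at h3
    exact h3.symm

private theorem lva_last (c : Λ.Row → Λ.Col → Val) (hc : Λ.net.Valid c) (i : Inc G) :
    fs (c (Λ.cr Λ.h i) (Fin.last (Λ.h + 1), (Λ.pe i.1).1)) =
      Λ.lva_col c (vert i) := by
  rw [← Λ.lva_level c hc i Λ.h (Nat.lt_succ_self _), ← Λ.path_last i]
  have h1 := Λ.lva_hop c hc (Fin.last Λ.h) i
  exact congrArg fs h1.symm

theorem colorable_of_valid (c : Λ.Row → Λ.Col → Val) (hc : Λ.net.Valid c) : G.Colorable 3 := by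
  have key : ∀ e : G.edgeSet, Λ.lva_col c (ends e).1 ≠ Λ.lva_col c (ends e).2 := by
    intro e
    have hy : ∀ b : Bool, ((Fin.last (Λ.h + 1), (Λ.pe e).1) : Λ.Col) =
        ((Fin.last Λ.h).succ, Λ.path (Λ.h + 1) (e, b)) := by
      intro b
      rw [Λ.path_last (e, b), Fin.succ_last]
    have h1 := hc.2 false (.edge (Λ.pe e).2) (Λ.cr Λ.h (e, false))
      (Fin.last (Λ.h + 1), (Λ.pe e).1) (vert (e, false)) (Or.inr (Or.inr ⟨e, rfl, rfl, rfl⟩))
      (Or.inr (Or.inl ⟨Fin.last Λ.h, (e, false), rfl, rfl, Or.inr (hy false)⟩))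
    rw [Λ.look_false, Λ.look_false] at h1
    have h2 := hc.2 true (.edge (Λ.pe e).2) (Λ.cr Λ.h (e, true))
      (Fin.last (Λ.h + 1), (Λ.pe e).1) (vert (e, true)) (Or.inr (Or.inr ⟨e, rfl, rfl, rfl⟩))
      (Or.inr (Or.inl ⟨Fin.last Λ.h, (e, true), rfl, rfl, Or.inr (hy true)⟩))
    rw [Λ.look_unlinked true _ _ _ rfl, if_pos rfl] at h2
    have h2' := Λ.look_cr true (Fin.last Λ.h) (e, true) (Fin.last (Λ.h + 1), (Λ.pe e).1)
      (c (Λ.cr Λ.h (e, true)) (Fin.last (Λ.h + 1), (Λ.pe e).1)) (Or.inr (hy true))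
    rw [show Λ.net.look true (Λ.cr Λ.h (e, true)) (Fin.last (Λ.h + 1), (Λ.pe e).1)
      (c (Λ.cr Λ.h (e, true)) (Fin.last (Λ.h + 1), (Λ.pe e).1)) = _ from h2'] at h2
    have h3 := Λ.lva_last c hc (e, false)
    have h4 := Λ.lva_last c hc (e, true)
    have e1 : vert (e, false) = (ends e).1 := by unfold vert ends; simp
    have e2 : vert (e, true) = (ends e).2 := by unfold vert ends; simp
    rw [e1] at h3
    rw [e2] at h4
    rw [← h3, ← h4, ← h1, ← h2]
    exact (c (.edge (Λ.pe e).2) (Fin.last (Λ.h + 1), (Λ.pe e).1)).2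
  refine ⟨SimpleGraph.Coloring.mk (Λ.lva_col c) ?_⟩
  intro u v huv
  have h1 := ends_eq (G := G) ⟨s(u, v), (SimpleGraph.mem_edgeSet G).2 huv⟩
  have h2 := key ⟨s(u, v), (SimpleGraph.mem_edgeSet G).2 huv⟩
  rcases Sym2.eq_iff.1 h1 with ⟨h3, h4⟩ | ⟨h3, h4⟩
  · rw [h3, h4] at h2
    exact h2
  · rw [h3, h4] at h2
    exact h2.symm

end Layout

end Pool.Agent.Helper59.PZ
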