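import Mathlib
import Pool.Agent.Helper59.PZ.LayNet

/-!
A 3-colouring gives a valid choice of values for the network of a layout.

The cells of an incidence get the value `(a, a + 1)`, `a` the colour of its vertex, the cell of an
edge gets the colours of its two ends, all other cells get a default value.
-/

set_option autoImplicit false

namespace Pool.Agent.Helper59.PZ

variable {V : Type}

namespace Layout

variable {G : SimpleGraph V} (Λ : Layout G)

/-- default value -/
private def lvb_d : Val := ⟨(0, 1), by decide⟩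

/-- a value with first colour `a` -/
private def lvb_w (a : Fin 3) : Val := ⟨(a, a + 1), by revert a; decide⟩

private theorem lvb_fs (a : Fin 3) : fs (lvb_w a) = a := rfl

private theorem lvb_proper (col : V → Fin 3) (hcol : ∀ u v, G.Adj u v → col u ≠ col v)
    (e : G.edgeSet) : col (vert (e, false)) ≠ col (vert (e, true)) := by
  have e1 : vert (e, false) = (ends e).1 := by unfold vert ends; simp
  have e2 : vert (e, true) = (ends e).2 := by unfold vert ends; simp
  rw [e1, e2]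
  exact hcol _ _ (adj_ends e)

open Classical in
/-- the values given by a colouring -/
private noncomputable def lvb_c (col : V → Fin 3) (hcol : ∀ u v, G.Adj u v → col u ≠ col v) :
    Λ.Row → Λ.Col → Val
  | .star, _ => lvb_d
  | .home k, y => if h : ∃ v, Λ.pv v = (y.2, k) then lvb_w (col h.choose) else lvb_d
  | .comm p ρ, y =>
      if h : ∃ z : Fin (Λ.h + 1) × Inc G, Λ.cr z.1 z.2 = .comm p ρ ∧
          (y = (z.1.castSucc, Λ.path z.1 z.2) ∨ y = (z.1.succ, Λ.path (z.1 + 1) z.2)) then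
        lvb_w (col (vert h.choose.2))
      else lvb_d
  | .edge k, y =>
      if h : ∃ e : G.edgeSet, Λ.pe e = (y.2, k) then
        ⟨(col (vert (h.choose, false)), col (vert (h.choose, true))),
          lvb_proper col hcol h.choose⟩
      else lvb_d

variable (col : V → Fin 3) (hcol : ∀ u v, G.Adj u v → col u ≠ col v)

private theorem lvb_home (v : V) (m : Fin (Λ.h + 2)) :
    Λ.lvb_c col hcol (.home (Λ.pv v).2) (m, (Λ.pv v).1) = lvb_w (col v) := by
  have h : ∃ v', Λ.pv v' = ((Λ.pv v).1, (Λ.pv v).2) := ⟨v, rfl⟩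
  have h1 : h.choose = v := Λ.pv_inj h.choose_spec
  unfold lvb_c
  simp only
  rw [dif_pos h, h1]

private theorem lvb_edge (e : G.edgeSet) (m : Fin (Λ.h + 2)) :
    Λ.lvb_c col hcol (.edge (Λ.pe e).2) (m, (Λ.pe e).1) =
      ⟨(col (vert (e, false)), col (vert (e, true))), lvb_proper col hcol e⟩ := by
  have h : ∃ e' : G.edgeSet, Λ.pe e' = ((Λ.pe e).1, (Λ.pe e).2) := ⟨e, rfl⟩
  have h1 : h.choose = e := Λ.pe_inj h.choose_spec
  unfold lvb_c
  simp only
  rw [dif_pos h]
  apply Subtype.ext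
  simp only [h1]

private theorem lvb_comm (j : Fin (Λ.h + 1)) (i : Inc G) (y : Λ.Col)
    (h : y = (j.castSucc, Λ.path j i) ∨ y = (j.succ, Λ.path (j + 1) i)) :
    Λ.lvb_c col hcol (Λ.cr j i) y = lvb_w (col (vert i)) := by
  have h0 : ∃ z : Fin (Λ.h + 1) × Inc G, Λ.cr z.1 z.2 = .comm (j : ℕ).bodd (Λ.rho j i) ∧
      (y = (z.1.castSucc, Λ.path z.1 z.2) ∨ y = (z.1.succ, Λ.path (z.1 + 1) z.2)) :=
    ⟨(j, i), rfl, h⟩
  have h1 : h0.choose.2 = i := Λ.cr_uniq j _ i _ h0.choose_spec.1 y h h0.choose_spec.2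
  change Λ.lvb_c col hcol (.comm (j : ℕ).bodd (Λ.rho j i)) y = _
  unfold lvb_c
  simp only
  rw [dif_pos h0, h1]

private theorem lvb_link (x : Λ.Row) (y : Λ.Col) (l : Λ.L) (b : Bool)
    (hl : Λ.lab x y = some (l, b)) :
    Λ.lvb_c col hcol x y = Λ.lvb_c col hcol x (Λ.ep l (!b)) := by
  cases x with
  | star => simp [lab] at hl
  | home k => simp [lab] at hl
  | edge k => simp [lab] at hl
  | comm p ρ =>
    obtain ⟨j, i, hi, hl1, h2⟩ := Λ.lab_comm_cases p ρ y l b hl
    rw [hi]
    subst hl1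
    rcases h2 with ⟨hb, hy⟩ | ⟨hb, hy⟩
    · subst hb
      rw [Λ.lvb_comm col hcol j i y (Or.inl hy)]
      exact (Λ.lvb_comm col hcol j i _ (Or.inr (Λ.ep_lk_true j i))).symm
    · subst hb
      rw [Λ.lvb_comm col hcol j i y (Or.inr hy)]
      exact (Λ.lvb_comm col hcol j i _ (Or.inl (Λ.ep_lk_false j i))).symm

private theorem lvb_name (b : Bool) (x : Λ.Row) (y : Λ.Col) (v : V) (h : Λ.Nm b x y v) :
    Λ.net.look b x y (Λ.lvb_c col hcol x y) = col v := by
  rcases h with ⟨hb, hx, hy⟩ | ⟨j, i, hv, hx, hy⟩ | ⟨e, hv, hx, hy⟩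
  · subst hb; subst hx; subst hy
    rw [Λ.look_false, Λ.lvb_home col hcol v 0]
    rfl
  · subst hv; subst hx
    rw [Λ.look_cr b j i y _ hy, Λ.lvb_comm col hcol j i y hy]
    rfl
  · subst hv; subst hx; subst hy
    rw [Λ.look_unlinked b _ _ _ rfl, Λ.lvb_edge col hcol e]
    cases b <;> rfl

theorem exists_valid (hG : G.Colorable 3) : ∃ c : Λ.Row → Λ.Col → Val, Λ.net.Valid c := by
  obtain ⟨C⟩ := hG
  have hcol : ∀ u v, G.Adj u v → C u ≠ C v := fun u v huv => C.valid huv
  refine ⟨Λ.lvb_c (fun v => C v) hcol, ?_, ?_⟩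
  · intro x y l b hl
    exact Λ.lvb_link _ hcol x y l b hl
  · intro b x x' y v hv hv'
    rw [Λ.lvb_name _ hcol b x y v hv, Λ.lvb_name _ hcol b x' y v hv']

end Layout

end Pool.Agent.Helper59.PZ
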