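import Mathlib
import Pool.Agent.Helper59.PZ.StepA

/-!
Rigidity, part B: `f d t = d` for colours and rows `d` and every `t` which is no column.

The relations `kXi`, `kN` and `kS` show this for rows and `zero` first, then for all other points;
inner colours by `kM` and `SOi`, rows by `kXi` at two different columns.
-/

set_option autoImplicit false

namespace Pool.Agent.Helper59.PZ

open Pool.Agent.Helper70.IdemDefs

variable {X Y L M : Type} {N : Network X Y L M} {f : Pt X Y L → Pt X Y L → Pt X Y L}

private theorem StB_zero (S : Set (Pt X Y L)) : kS S (.zero : Pt X Y L) = .zero := by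
  unfold kS
  split_ifs <;> rfl

private theorem StB_mem {S : Set (Pt X Y L)} {p : Pt X Y L} (h : p ∈ S) : kS S p = .zero := by
  unfold kS
  rw [if_pos h]

private theorem StB_not {S : Set (Pt X Y L)} {p : Pt X Y L} (h : p ∉ S) : kS S p = p := by
  unfold kS
  rw [if_neg h]

/-- the class of zero -/
private theorem StB_cases {S : Set (Pt X Y L)} {p : Pt X Y L} (h : kS S p = .zero) :
    p ∈ S ∨ p = .zero := by
  by_cases hp : p ∈ S
  · exact Or.inl hp
  · rw [StB_not hp] at h
    exact Or.inr h

/-- the other classes are singletons -/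
private theorem StB_eq {S : Set (Pt X Y L)} {p d : Pt X Y L} (hd : d ≠ .zero)
    (h : kS S p = d) : p = d := by
  by_cases hp : p ∈ S
  · rw [StB_mem hp] at h
    exact absurd h.symm hd
  · rwa [StB_not hp] at h

namespace Network

private theorem StB_step (h : N.Good f) {S : Set (Pt X Y L)} (hk : N.Inv (Setoid.ker (kS S)))
    {d t t0 : Pt X Y L} (hd0 : d ≠ .zero) (hd : d ∉ S) (h0 : f d t0 = d)
    (ht : kS S t = kS S t0) (hs : N.Sd t t0 ) : f d t = d := by
  have h1 := h.right (kS S) hk d ht hs
  rw [h0, StB_not hd] at h1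
  exact StB_eq hd0 h1

/-- from a row and zero to all points which are no columns -/
private theorem StB_all (h : N.Good f) {d : Pt X Y L} (hd0 : d ≠ .zero)
    (hr : ∀ s, d ≠ .r s) (hz : f d .zero = d) (hrow : ∀ x, f d (.row x) = d)
    (hi : ∀ l v, d ∉ (SOi l v : Set (Pt X Y L)))
    (ho : ∀ l b v, d ≠ .out l b v → d ∉ (SOl l b v : Set (Pt X Y L)))
    (t : Pt X Y L) (ht : ∀ y', t ≠ .col y') : f d t = d := by
  by_cases hdt : t = d
  · rw [hdt]
    exact h.idem d
  cases t with
  | zero => exact hz
  | r s =>
    refine StB_step (hs := Or.inr (Seed.zero _)) h (N.inv_SR s) hd0 (fun hm => hr s hm) hz ?_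
    rw [StB_zero]
    exact StB_mem rfl
  | row x => exact hrow x
  | col y' => exact absurd rfl (ht y')
  | pl y' w =>
    refine StB_step (hs := Or.inr (Seed.zero _)) h (N.inv_SOp y' w) hd0 (fun hm => hdt ?_) hz ?_
    · exact (show d = .pl y' w from hm).symm
    · rw [StB_zero]
      exact StB_mem rfl
  | out l' b' w =>
    refine StB_step (hs := Or.inr (Seed.zero _)) h (N.inv_SOl l' b' w) hd0 (ho l' b' w (fun e => hdt e.symm)) hz ?_
    rw [StB_zero]
    exact StB_mem (Or.inl rfl)
  | inn l' b' w =>
    refine StB_step (hs := Or.inr (Seed.zero _)) h (N.inv_SOi l' w) hd0 (hi l' w) hz ?_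
    rw [StB_zero]
    exact StB_mem ⟨b', rfl⟩

theorem Good.pl_other (h : N.Good f) (y : Y) (v : Val) (t : Pt X Y L) (ht : ∀ y', t ≠ .col y') :
    f (.pl y v) t = .pl y v := by
  classical
  have hS : ∀ t, f (.pl y v) t = .pl y v ∨ f (.pl y v) t = .zero := by
    intro t
    have h1 := h.left (hs := Or.inr (Seed.zero _)) (kS (SOp y v)) (N.inv_SOp y v) (u := .pl y v) (u' := .zero) t
      (by rw [StB_zero]; exact StB_mem rfl)
    rw [h.fz, StB_zero] at h1
    exact StB_cases h1
  have hstar : f (.pl y v) (.row N.star) = .pl y v := by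
    rcases hS (.row N.star) with h1 | h1
    · exact h1
    · exfalso
      have h2 := h.left (hs := Or.inr (Seed.star _)) (N.kXi N.star y) (N.inv_kXi N.star y) (u := .pl y v)
        (u' := .row N.star) (.row N.star) (by simp [Network.kXi, N.lab_star y])
      rw [h1, h.idem] at h2
      simp [Network.kXi] at h2
  have hrow : ∀ x, f (.pl y v) (.row x) = .pl y v := by
    intro x
    rcases hS (.row x) with h1 | h1
    · exact h1
    · exfalso
      have h2 := h.right (hs := Or.inr (Seed.star _)) (N.kN x) (N.inv_kN x) (.pl y v) (t := .row x)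
        (t' := .row N.star) (by simp [Network.kN])
      rw [h1, hstar] at h2
      simp [Network.kN] at h2
  have hz : f (.pl y v) .zero = .pl y v := by
    obtain ⟨w, hw⟩ : ∃ w : Val, w ≠ v := by
      by_cases h0 : v = ⟨(0, 1), by decide⟩
      · exact ⟨⟨(1, 0), by decide⟩, by rw [h0]; decide⟩
      · exact ⟨⟨(0, 1), by decide⟩, Ne.symm h0⟩
    have hw1 : f (.pl y v) (.pl y w) = .pl y v := by
      rcases hS (.pl y w) with h1 | h1
      · exact h1
      · exfalso
        have h2 := h.right (hs := Or.inr (Seed.star _)) (N.kXi N.star y) (N.inv_kXi N.star y) (.pl y v) (t := .pl y w)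
          (t' := .row N.star) (by simp [Network.kXi, N.lab_star y])
        rw [h1, hstar] at h2
        simp [Network.kXi, N.lab_star y] at h2
    refine StB_step (hs := Or.inl (Seed.zero _)) h (N.inv_SOp y w) (by simp) (fun hm => hw ?_) hw1 ?_
    · have h1 : (.pl y v : Pt X Y L) = .pl y w := hm
      exact (Pt.pl.inj h1).2.symm
    · rw [StB_zero]
      exact (StB_mem rfl).symm
  refine StB_all h (by simp) (by simp) hz hrow ?_ ?_ t ht
  · rintro l w ⟨b', h1⟩
    simp at h1
  · rintro l b w - (h1 | ⟨b', h1⟩)
    · simp at h1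
    · simp at h1

theorem kW_cases {l : L} {b : Bool} {v v' : Val} {p : Pt X Y L}
    (h : N.kW l b v v' p = .out l b v) : p = .pl (N.ep l b) v' ∨ p = .out l b v := by
  unfold kW at h
  split_ifs at h with h1 h2
  · exact Or.inl h1
  · exact Or.inr h

/-- an outer colour is fixed where the plain colour of the same column and value is fixed -/
theorem Good.out_of_pl (h : N.Good f) (l : L) (b : Bool) (v : Val) (t : Pt X Y L)
    (hp : f (.pl (N.ep l b) v) t = .pl (N.ep l b) v) : f (.out l b v) t = .out l b v := by
  classical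
  have hS : f (.out l b v) t = .out l b v ∨ f (.out l b v) t = .zero ∨
      ∃ b', f (.out l b v) t = .inn l b' v := by
    have h1 := h.left (hs := Or.inr (Seed.zero _)) (kS (SOl l b v)) (N.inv_SOl l b v) (u := .out l b v) (u' := .zero) t
      (by rw [StB_zero]; exact StB_mem (Or.inl rfl))
    rw [h.fz, StB_zero] at h1
    rcases StB_cases h1 with (h2 | h2) | h2
    · exact Or.inl h2
    · exact Or.inr (Or.inr h2)
    · exact Or.inr (Or.inl h2)
  have e1 : N.kW l b v v (.out l b v) = .out l b v := by
    simp [kW, SOi]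
  have e2 : N.kW l b v v (.pl (N.ep l b) v) = .out l b v := by
    simp [kW]
  have h1 := h.left (hs := Or.inl (Seed.pl _ _ _)) (N.kW l b v v) (N.inv_kW l b v v) t
    (u := .out l b v) (u' := .pl (N.ep l b) v) (e1.trans e2.symm)
  rw [hp, e2] at h1
  rcases kW_cases h1 with h2 | h2
  · rcases hS with h3 | h3 | ⟨b', h3⟩
    · exact h3
    · rw [h2] at h3
      simp at h3
    · rw [h2] at h3
      simp at h3
  · exact h2

theorem Good.out_other (h : N.Good f) (l : L) (b : Bool) (v : Val) (t : Pt X Y L)
    (ht : ∀ y', t ≠ .col y') : f (.out l b v) t = .out l b v :=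
  h.out_of_pl l b v t (h.pl_other _ v t ht)

theorem Good.inn_other (h : N.Good f) (l : L) (b : Bool) (v : Val) (t : Pt X Y L)
    (ht : ∀ y', t ≠ .col y') : f (.inn l b v) t = .inn l b v := by
  classical
  have h1 := h.left (hs := Or.inr (Seed.zero _)) (kS (SOi l v)) (N.inv_SOi l v) (u := .inn l b v) (u' := .zero) t
    (by rw [StB_zero]; exact StB_mem ⟨b, rfl⟩)
  rw [h.fz, StB_zero] at h1
  have h2 := h.left (hs := Or.inr (Seed.inn _ _ _)) (kM l b v) (N.inv_kM l b v) (u := .inn l b v) (u' := .out l b v) t
    (by simp [kM])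
  rw [h.out_other l b v t ht] at h2
  have h3 : kM l b v (.out l b v : Pt X Y L) = .out l b v := by simp [kM]
  rw [h3] at h2
  unfold kM at h2
  split_ifs at h2 with h4
  · exact h4
  · exfalso
    rw [h2] at h1
    rcases StB_cases h1 with ⟨b', h5⟩ | h5
    · simp at h5
    · simp at h5

private theorem StB_star (h : N.Good f) (x : X) (hxs : x = N.star) (t : Pt X Y L)
    (ht : ∀ y', t ≠ .col y') : f (.row x) t = .row x := by
  classical
  have hcls : ∀ y, N.kXi x y (f (.row x) t) = .inr 0 := by
    intro y
    let v : Val := ⟨(0, 1), by decide⟩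
    have h0 : N.kXi x y (.row x) = .inr 0 := by simp [Network.kXi]
    have h1 : N.kXi x y (N.cell x y v) = .inr 0 := by
      unfold Network.cell
      cases hl : N.lab x y with
      | none => simp [Network.kXi, hl]
      | some lb => simp [Network.kXi, hl]
    have h2 := h.left (N.kXi x y) (N.inv_kXi x y) (u := .row x) (u' := N.cell x y v) t
      (by rw [h0, h1]) (by rw [hxs]; exact Or.inl (Seed.star _))
    have h3 : f (N.cell x y v) t = N.cell x y v := by
      unfold Network.cell
      cases hl : N.lab x y with
      | none => exact h.pl_other y v t ht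
      | some lb => exact h.out_other lb.1 lb.2 v t ht
    rw [h2, h3, h1]
  have y := N.base
  obtain ⟨y2, hne⟩ := N.two y
  have h1 := hcls y
  have h2 := hcls y2
  generalize f (.row x) t = p at h1 h2
  cases p with
  | zero => simp [Network.kXi] at h1
  | r s => simp [Network.kXi] at h1
  | row x' =>
    unfold Network.kXi at h1
    simp only at h1
    split_ifs at h1 with h3
    rw [h3]
  | col y' => simp [Network.kXi] at h1
  | pl y' w =>
    exfalso
    unfold Network.kXi at h1 h2
    simp only at h1 h2
    split_ifs at h1 h2 with h3 h4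
    exact hne (h4.2.symm.trans h3.2)
  | out l' b' w =>
    exfalso
    unfold Network.kXi at h1 h2
    simp only at h1 h2
    split_ifs at h1 with h3 h4
    · split_ifs at h2 with h5 h6
      · exact hne ((N.lab_ep _ _ _ _ h5).symm.trans (N.lab_ep _ _ _ _ h3))
      · simp at h2
    · simp at h1
  | inn l' b' w =>
    exfalso
    unfold Network.kXi at h1
    simp only at h1
    split_ifs at h1 <;> simp at h1

theorem kN_row (x : X) : N.kN x (.row x) = .inl (.row N.star) := by
  simp [kN]

theorem kN_rowstar (x : X) : N.kN x (.row N.star) = .inl (.row N.star) := by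
  simp only [kN]
  split_ifs <;> rfl

/-- the class of the row `x` -/
theorem kN_cases {x : X} {p : Pt X Y L} (h : N.kN x p = .inl (.row N.star)) :
    p = .row x ∨ p = .row N.star := by
  classical
  cases p with
  | zero => simp [kN] at h
  | r s => simp [kN] at h
  | col y' => simp [kN] at h
  | row x' =>
    simp only [kN] at h
    split_ifs at h with h1
    · exact Or.inl (by rw [h1])
    · exact Or.inr (Sum.inl.inj h)
  | pl y' w => simp [kN] at h
  | out l b w => simp only [kN] at h; split_ifs at h; simp at h
  | inn l b w => simp only [kN] at h; split_ifs at h <;> simp at h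

/-- the values of an operation at a row are zero, the row, its cells or inner colours -/
theorem Good.row_SZ (h : N.Good f) (x : X) (t : Pt X Y L) :
    f (.row x) t ∈ N.SZ x ∨ f (.row x) t = .zero := by
  have h1 := h.left (hs := Or.inr (Seed.zero _)) (kS (N.SZ x)) (N.inv_SZ x) (u := .row x) (u' := .zero) t
    (by rw [StB_zero]; exact StB_mem (Or.inl rfl))
  rw [h.fz, StB_zero] at h1
  exact StB_cases h1

/-- the row `star` is only in its own set -/
theorem star_SZ {x : X} {p : Pt X Y L} (hp : p ∈ N.SZ x ∨ p = .zero) (h : p = .row N.star) :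
    p = .row x := by
  subst h
  rcases hp with (h1 | ⟨y1, v1, h1⟩ | ⟨l, b, v1, -, h1⟩) | h1
  · exact h1
  · unfold Network.cell at h1
    split at h1 <;> simp at h1
  · simp at h1
  · simp at h1

theorem Good.row_other (h : N.Good f) (x : X) (t : Pt X Y L)
    (ht : ∀ y', t ≠ .col y') : f (.row x) t = .row x := by
  have h1 := h.left (hs := Or.inr (Seed.star _)) (N.kN x) (N.inv_kN x) t (u := .row x) (u' := .row N.star)
    ((kN_row x).trans (kN_rowstar x).symm)
  rw [StB_star h N.star rfl t ht, kN_rowstar] at h1
  rcases kN_cases h1 with h2 | h2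
  · exact h2
  · exact star_SZ (h.row_SZ x t) h2

end Network

end Pool.Agent.Helper59.PZ
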