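import Mathlib
import Pool.Agent.Helper59.PZ.StepB

/-!
Rigidity, part C: colours at their own column (`pl_own`, `out_own`, `inn_own`), the two possible
values of an operation at a row and a column (`row_cases`), the dichotomy for the whole grid
(`dich`), and the case in which all rows are fixed by the columns (`case1`): then the operation is
the first projection.
-/

set_option autoImplicit false

namespace Pool.Agent.Helper59.PZ

open Pool.Agent.Helper70.IdemDefs

variable {X Y L M : Type} {N : Network X Y L M} {f : Pt X Y L → Pt X Y L → Pt X Y L}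

private theorem stepC_kS {S : Set (Pt X Y L)} {p : Pt X Y L} (h : kS S p = .zero) :
    p ∈ S ∨ p = .zero := by
  unfold kS at h
  split_ifs at h with h1
  · exact Or.inl h1
  · exact Or.inr h

namespace Network

private theorem stepC_mem (h : N.Good f) {S : Set (Pt X Y L)}
    (hS : N.Inv (Setoid.ker (kS S))) {p : Pt X Y L} (hp : p ∈ S) (t : Pt X Y L) :
    f p t ∈ S ∨ f p t = .zero := by
  have h1 : kS S p = kS S (.zero : Pt X Y L) := by
    unfold kS
    rw [if_pos hp]
    split_ifs <;> rfl
  have h2 := h.left (hs := Or.inr (Seed.zero _)) (kS S) hS t h1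
  rw [h.fz] at h2
  apply stepC_kS
  rw [h2]
  unfold kS
  split_ifs <;> rfl

theorem Good.pl_own (h : N.Good f) (y : Y) (v : Val) : f (.pl y v) (.col y) = .pl y v := by
  have h1 := h.right (hs := Or.inr (Seed.r _ _)) (N.kPsi y false) (N.inv_kPsi y false) (.pl y v)
    (t := .col y) (t' := .r false) (by simp [kPsi])
  rw [h.pl_other y v (.r false) (by intro y'; simp)] at h1
  rcases stepC_mem h (N.inv_SOp y v) (p := .pl y v) rfl (.col y) with h2 | h2
  · exact h2
  · rw [h2] at h1
    simp [kPsi] at h1

private theorem stepC_kM {l : L} {b : Bool} {v : Val} {p : Pt X Y L}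
    (h : kM l b v p = .out l b v) : p = .inn l b v ∨ p = .out l b v := by
  unfold kM at h
  split_ifs at h with h1
  · exact Or.inl h1
  · exact Or.inr h

theorem Good.out_own (h : N.Good f) (l : L) (b : Bool) (v : Val) :
    f (.out l b v) (.col (N.ep l b)) = .out l b v :=
  h.out_of_pl l b v _ (h.pl_own _ v)

private theorem stepC_inn (h : N.Good f) (l : L) (b : Bool) (v : Val) (t : Pt X Y L)
    (ho : f (.out l b v) t = .out l b v) : f (.inn l b v) t = .inn l b v := by
  have e1 : kM l b v (.out l b v : Pt X Y L) = .out l b v := by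
    simp [kM]
  have e2 : kM l b v (.inn l b v : Pt X Y L) = .out l b v := by
    simp [kM]
  have h1 := h.left (hs := Or.inr (Seed.inn _ _ _)) (kM l b v) (N.inv_kM l b v) t
    (u := .inn l b v) (u' := .out l b v) (e2.trans e1.symm)
  rw [ho, e1] at h1
  rcases stepC_kM h1 with h2 | h2
  · exact h2
  · rcases stepC_mem h (N.inv_SOi l v) (p := .inn l b v) ⟨b, rfl⟩ t with h3 | h3
    · rw [h2] at h3
      simp [SOi] at h3
    · rw [h2] at h3
      simp at h3

theorem Good.inn_own (h : N.Good f) (l : L) (b : Bool) (v : Val) :
    f (.inn l b v) (.col (N.ep l b)) = .inn l b v :=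
  stepC_inn h l b v _ (h.out_own l b v)

private theorem stepC_cell (h : N.Good f) (x : X) (y : Y) (v : Val) :
    f (N.cell x y v) (.col y) = N.cell x y v := by
  unfold cell
  split
  · exact h.pl_own y v
  · rename_i l b hl
    have he := N.lab_ep x y l b hl
    subst he
    exact h.out_own l b v

private theorem stepC_kXi_cell (N : Network X Y L M) (x : X) (y : Y) (v : Val) :
    N.kXi x y (N.cell x y v) = .inr 0 := by
  unfold cell
  split
  · rename_i hl
    simp [kXi, hl]
  · rename_i l b hl
    simp [kXi, hl]

private theorem stepC_kXi_row (N : Network X Y L M) (x : X) (y : Y) :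
    N.kXi x y (.row x) = .inr 0 := by
  simp [kXi]

private theorem stepC_kXi {x : X} {y : Y} {p : Pt X Y L} (h : N.kXi x y p = .inr 0) :
    p = .row x ∨ ∃ v, p = N.cell x y v := by
  cases p with
  | zero => simp [kXi] at h
  | r s => simp [kXi] at h
  | col y' => simp [kXi] at h
  | row x' =>
    left
    simp only [kXi] at h
    split_ifs at h with h1
    rw [h1]
  | pl y' w =>
    right
    simp only [kXi] at h
    split_ifs at h with h1
    refine ⟨w, ?_⟩
    unfold cell
    rw [h1.1, h1.2]
  | out l b w =>
    right
    simp only [kXi] at h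
    split_ifs at h with h1 h2
    · refine ⟨w, ?_⟩
      unfold cell
      rw [h1]
    · simp at h
  | inn l b w =>
    exfalso
    simp only [kXi] at h
    split_ifs at h with h1 h2
    · simp at h
    · simp at h

private theorem stepC_star_cases (h : N.Good f) (y : Y) :
    f (.row N.star) (.col y) = .row N.star ∨ ∃ v, f (.row N.star) (.col y) = N.cell N.star y v := by
  apply stepC_kXi
  have v : Val := ⟨(0, 1), by decide⟩
  have h1 := h.left (hs := Or.inl (Seed.star _)) (N.kXi N.star y) (N.inv_kXi N.star y) (.col y)
    (u := .row N.star) (u' := N.cell N.star y v)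
    ((stepC_kXi_row N N.star y).trans (stepC_kXi_cell N N.star y v).symm)
  rw [stepC_cell h N.star y v, stepC_kXi_cell] at h1
  exact h1

private theorem stepC_kN_cell (N : Network X Y L M) (x : X) (y : Y) (v : Val) :
    N.kN x (N.cell x y v) = .inr y := by
  unfold cell
  split
  · simp [kN]
  · rename_i l b hl
    have he := N.lab_ep x y l b hl
    subst he
    simp [kN, hl]

private theorem stepC_kN_star (N : Network X Y L M) (x : X) (y : Y) (v : Val) :
    N.kN x (N.cell N.star y v) = .inr y := by
  unfold cell
  rw [N.lab_star]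
  simp [kN]

/-- a point of the class of the cell `(x, y)` -/
private theorem stepC_kN_inr {x : X} {y : Y} {p : Pt X Y L} (h : N.kN x p = .inr y)
    (hp : p ∈ N.SZ x ∨ p = .zero) : ∃ v, p = N.cell x y v := by
  classical
  cases p with
  | zero => simp [kN] at h
  | r s => simp [kN] at h
  | col y' => simp [kN] at h
  | row x' => simp only [kN] at h; split_ifs at h
  | inn l b w => simp only [kN] at h; split_ifs at h
  | pl y' w =>
    have h1 : y' = y := by simpa [kN] using h
    subst h1
    rcases hp with (h2 | ⟨y1, v1, h2⟩ | ⟨l, b, v1, -, h2⟩) | h2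
    · simp at h2
    · refine ⟨w, ?_⟩
      unfold cell at h2 ⊢
      split at h2
      · next hl =>
        have h3 : y' = y1 := (Pt.pl.inj h2).1
        subst h3
        rw [hl]
      · simp at h2
    · simp at h2
    · simp at h2
  | out l b w =>
    simp only [kN] at h
    split_ifs at h with h1
    have h2 : N.ep l b = y := Sum.inr.inj h
    subst h2
    refine ⟨w, ?_⟩
    unfold cell
    rw [h1]

theorem Good.row_cases (h : N.Good f) (x : X) (y : Y) :
    f (.row x) (.col y) = .row x ∨ ∃ v, f (.row x) (.col y) = N.cell x y v := by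
  have h1 := h.left (hs := Or.inr (Seed.star _)) (N.kN x) (N.inv_kN x) (.col y)
    (u := .row x) (u' := .row N.star)
    ((kN_row x).trans (kN_rowstar x).symm)
  rcases stepC_star_cases h y with h2 | ⟨v, h2⟩
  · rw [h2, kN_rowstar] at h1
    rcases kN_cases h1 with h3 | h3
    · exact Or.inl h3
    · exact Or.inl (star_SZ (h.row_SZ x _) h3)
  · rw [h2, stepC_kN_star] at h1
    exact Or.inr (stepC_kN_inr h1 (h.row_SZ x _))

private theorem stepC_row_iff (h : N.Good f) (x : X) (y : Y) :
    f (.row x) (.col y) = .row x ↔ f (.row N.star) (.col y) = .row N.star := by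
  have h1 := h.left (hs := Or.inr (Seed.star _)) (N.kN x) (N.inv_kN x) (.col y)
    (u := .row x) (u' := .row N.star)
    ((kN_row x).trans (kN_rowstar x).symm)
  constructor
  · intro h2
    rcases h.row_cases N.star y with h3 | ⟨v, h3⟩
    · exact h3
    · rw [h2, h3, kN_row, stepC_kN_star] at h1
      simp at h1
  · intro h2
    rcases h.row_cases x y with h3 | ⟨v, h3⟩
    · exact h3
    · rw [h2, h3, kN_rowstar, stepC_kN_cell] at h1
      simp at h1

private theorem stepC_star (h : N.Good f) (y y' : Y) (hs : N.Sd (.col y) (.col y'))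
    (hy : f (.row N.star) (.col y) = .row N.star) :
    f (.row N.star) (.col y') = .row N.star := by
  have e : kH y y' (.col y : Pt X Y L) = kH y y' (.col y') := by
    simp only [kH]
    split_ifs <;> simp_all [SA]
  have h1 := h.right (kH y y') (N.inv_kH y y') (.row N.star) e hs
  rcases h.row_cases N.star y' with h3 | ⟨v, h3⟩
  · exact h3
  · exfalso
    have e2 : N.cell N.star y' v = .pl y' v := by
      unfold cell
      rw [N.lab_star]
    have hm : (.pl y' v : Pt X Y L) ∈ (SA : Set (Pt X Y L)) := Or.inl ⟨y', v, rfl⟩
    have e3 : kH y y' (.pl y' v : Pt X Y L) = .zero := by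
      unfold kH
      rw [if_neg (by simp), if_pos hm]
    have e4 : kH y y' (.row N.star : Pt X Y L) = .row N.star := by
      unfold kH
      rw [if_neg (by simp), if_neg (by simp [SA])]
    rw [hy, h3, e2, e3, e4] at h1
    simp at h1

theorem Good.dich (h : N.Good f) :
    (∀ x y, f (.row x) (.col y) = .row x) ∨ (∀ x y, ∃ v, f (.row x) (.col y) = N.cell x y v) := by
  by_cases h0 : f (.row N.star) (.col N.base) = .row N.star
  · left
    intro x y
    exact (stepC_row_iff h x y).2 (stepC_star h N.base y (Or.inl (Seed.base _)) h0)
  · right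
    intro x y
    rcases h.row_cases x y with h3 | h3
    · exact absurd (stepC_star h y N.base (Or.inr (Seed.base _)) ((stepC_row_iff h x y).1 h3)) h0
    · exact h3

theorem Good.case1 (h : N.Good f) (h1 : ∀ x y, f (.row x) (.col y) = .row x)
    (u t : Pt X Y L) : f u t = u := by
  by_cases ht : ∃ y, t = .col y
  · obtain ⟨y, rfl⟩ := ht
    have hpl : ∀ w v, f (.pl w v) (.col y) = .pl w v := by
      intro w v
      have e : ∀ v', N.cell N.star w v' = .pl w v' := by
        intro v'
        unfold cell
        rw [N.lab_star]
      have h2 := h.left (hs := Or.inr (Seed.star _)) (N.kXi N.star w) (N.inv_kXi N.star w) (.col y)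
        (u := N.cell N.star w v) (u' := .row N.star)
        ((stepC_kXi_cell N N.star w v).trans (stepC_kXi_row N N.star w).symm)
      rw [h1, stepC_kXi_row, e] at h2
      have h3 := stepC_mem h (N.inv_SOp w v) (p := .pl w v) rfl (.col y)
      rcases stepC_kXi h2 with h4 | ⟨v', h4⟩
      · rw [h4] at h3
        simp [SOp] at h3
      · rw [e] at h4
        rw [h4] at h3
        rw [h4]
        simpa [SOp] using h3
    have hout : ∀ l b v, f (.out l b v) (.col y) = .out l b v := fun l b v =>
      h.out_of_pl l b v _ (hpl _ v)
    cases u with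
    | zero => exact h.fz _
    | r s => exact h.fr s _
    | row x => exact h1 x y
    | col y' => exact h.fc y' _
    | pl w v => exact hpl w v
    | out l b v => exact hout l b v
    | inn l b v => exact stepC_inn h l b v _ (hout l b v)
  · have ht' : ∀ y', t ≠ .col y' := fun y' e => ht ⟨y', e⟩
    cases u with
    | zero => exact h.fz _
    | r s => exact h.fr s _
    | row x => exact h.row_other x t ht'
    | col y' => exact h.fc y' _
    | pl w v => exact h.pl_other w v t ht'
    | out l b v => exact h.out_other l b v t ht'
    | inn l b v => exact h.inn_other l b v t ht'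

end Network

end Pool.Agent.Helper59.PZ
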