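import Mathlib
import Pool.Agent.Helper59.PZ.StepC

/-!
Rigidity, part D: the second case gives a valid choice of values (`Good.valid`), so a network
without valid choice has property (P) (`propertyP_of`).
-/

set_option autoImplicit false

namespace Pool.Agent.Helper59.PZ

open Pool.Agent.Helper70.IdemDefs

variable {X Y L M : Type} {N : Network X Y L M} {f : Pt X Y L → Pt X Y L → Pt X Y L}

namespace Network

private theorem stepD_kD_names {b : Bool} {y : Y} {x x' : X} {m : M} (h : N.Nm b x y m)
    (h' : N.Nm b x' y m) : N.kD b y (.row x) = N.kD b y (.row x') := by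
  classical
  have key : ∀ x, N.Nm b x y m → N.kD b y (.row x) = .inr (.inl m) := by
    intro x hx
    have h1 : ∃ m, N.Nm b x y m := ⟨m, hx⟩
    simp only [kD]
    rw [dif_pos h1, N.Nm_uniq b x y _ m h1.choose_spec hx]
  rw [key x h, key x' h']

private theorem stepD_pair (h : N.Good f) (c : X → Y → Val)
    (hf : ∀ x y, f (.row x) (.col y) = N.cell x y (c x y)) (b : Bool) (x x' : X) (y : Y) (m : M)
    (hx : N.Nm b x y m) (hx' : N.Nm b x' y m) :
    N.look b x y (c x y) = N.look b x' y (c x' y) := by
  have h1 : N.kD b y (f (.row x) (.col y)) = N.kD b y (f (.row x') (.col y)) :=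
    (h.names (Setoid.ker (N.kD b y)) (N.inv_kD b y) b y
      (fun _ _ _ hm hm' => stepD_kD_names hm hm') x x' m hx hx' (.col y)).1
  rw [hf, hf, kD_cell, kD_cell, if_pos rfl, if_pos rfl] at h1
  exact Sum.inr.inj (Sum.inr.inj h1)

private theorem stepD_col (l : L) (b : Bool) :
    N.kHL l (.col (N.ep l b)) = N.kHL l (.col (N.ep l (!b))) := by
  have h1 : N.ep l false ≠ N.ep l true := N.ep_ne l false
  cases b <;> simp [kHL, h1]

private theorem stepD_out (l : L) {x : X} {y : Y} {b : Bool} (hl : N.lab x y = some (l, b))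
    (v : Val) : N.kHL l (N.cell x y v) = .inr v := by
  simp [cell, hl, kHL]

private theorem stepD_sd (l : L) (b : Bool) : N.Sd (.col (N.ep l b)) (.col (N.ep l (!b))) := by
  cases b
  · exact Or.inl (Seed.link l)
  · exact Or.inr (Seed.link l)

theorem Good.valid (h : N.Good f) (c : X → Y → Val)
    (hf : ∀ x y, f (.row x) (.col y) = N.cell x y (c x y)) : N.Valid c := by
  refine ⟨fun x y l b hl => ?_, fun b x x' y m hm hm' => stepD_pair h c hf b x x' y m hm hm'⟩
  have he := N.lab_ep x y l b hl
  have h1 := h.right (N.kHL l) (N.inv_kHL l) (.row x) (stepD_col (N := N) l b) (stepD_sd l b)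
  rw [hf, hf, he, stepD_out l hl, stepD_out l (N.lab_sym x y l b hl)] at h1
  exact Sum.inr.inj h1

private theorem stepD_good (hno : ¬ ∃ c, N.Valid c) (h : N.Good f)
    (u t : Pt X Y L) : f u t = u := by
  rcases h.dich with h1 | h1
  · exact h.case1 h1 u t
  · choose c hc using h1
    exact absurd ⟨c, h.valid c hc⟩ hno

private theorem stepD_kRR {p : Pt X Y L} (h : kRR p = .r false) : ∃ s, p = .r s := by
  cases p <;> simp [kRR] at h
  exact ⟨_, rfl⟩

private theorem stepD_kS {s : Bool} {p : Pt X Y L}
    (h : kS (SR s : Set (Pt X Y L)) p = .r (!s)) : p = .r (!s) := by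
  unfold kS at h
  split_ifs at h with h1
  exact h

/-- If there is no valid choice, the family has property (P). -/
theorem propertyP_of (hno : ¬ ∃ c, N.Valid c) : PropertyP N.family := by
  intro f hid hpres
  have hp : ∀ θ : Setoid (Pt X Y L), N.Inv θ → ∀ u u', N.Sd u u' → θ u u' → ∀ t,
      θ (f u t) (f u' t) ∧ θ (f t u) (f t u') :=
    fun θ hθ u u' hs hu t => N.pres_seed hpres hθ hs hu t
  have hn : ∀ θ : Setoid (Pt X Y L), N.Inv θ → ∀ b y,
      (∀ x x' m, N.Nm b x y m → N.Nm b x' y m → θ (.row x) (.row x')) →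
        ∀ x x' m, N.Nm b x y m → N.Nm b x' y m → ∀ t,
          θ (f (.row x) t) (f (.row x') t) ∧ θ (f t (.row x)) (f t (.row x')) :=
    fun θ hθ b y hu x x' m hx hx' t => N.pres_names hpres hθ hu hx hx' t
  have h1 : kRR (f (.r false) (.r true)) = (.r false : Pt X Y L) := by
    have h2 : kRR (f (.r false) (.r true)) = kRR (f (.r false) (.r false)) :=
      (hp _ N.inv_kRR (.r true) (.r false) (Or.inl (Seed.r _ _)) rfl (.r false)).2
    rw [h2, hid]
    rfl
  obtain ⟨s, hs⟩ := stepD_kRR h1
  cases s with
  | false =>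
    exact Or.inl fun u t => stepD_good hno ⟨hid, hp, hn, hs⟩ u t
  | true =>
    refine Or.inr fun u t => ?_
    have hF0 : kS (SR false : Set (Pt X Y L)) .zero = kS (SR false : Set (Pt X Y L)) (.r false) := by
      simp [kS, SR]
    have hF1 : kS (SR true : Set (Pt X Y L)) .zero = kS (SR true : Set (Pt X Y L)) (.r true) := by
      simp [kS, SR]
    have h3 : f .zero (.r true) = .r true := by
      have h4 : kS (SR false : Set (Pt X Y L)) (f .zero (.r true)) =
          kS (SR false : Set (Pt X Y L)) (f (.r false) (.r true)) :=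
        (hp _ (N.inv_SR false) .zero (.r false) (Or.inl (Seed.zero _)) hF0 (.r true)).1
      rw [hs] at h4
      refine stepD_kS (s := false) (h4.trans ?_)
      simp [kS, SR]
    have h5 : ∃ s, f .zero (.r false) = .r s := by
      have h4 : kRR (f .zero (.r false)) = kRR (f .zero (.r true)) :=
        (hp _ N.inv_kRR (.r false) (.r true) (Or.inl (Seed.r _ _)) rfl .zero).2
      rw [h3] at h4
      exact stepD_kRR h4
    have h6 : f .zero (.r false) = .r false := by
      obtain ⟨s, h7⟩ := h5
      have h4 : kS (SR false : Set (Pt X Y L)) (f .zero (.r false)) =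
          kS (SR false : Set (Pt X Y L)) (f .zero .zero) :=
        (hp _ (N.inv_SR false) (.r false) .zero (Or.inl (Seed.r _ _)) hF0.symm .zero).2
      rw [h7, hid] at h4
      cases s with
      | false => exact h7
      | true => simp [kS, SR] at h4
    have h8 : f (.r true) (.r false) = .r false := by
      have h4 : kS (SR true : Set (Pt X Y L)) (f (.r true) (.r false)) =
          kS (SR true : Set (Pt X Y L)) (f .zero (.r false)) :=
        (hp _ (N.inv_SR true) (.r true) .zero (Or.inl (Seed.r _ _)) hF1.symm (.r false)).1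
      rw [h6] at h4
      refine stepD_kS (s := true) (h4.trans ?_)
      simp [kS, SR]
    exact stepD_good (f := fun u t => f t u) hno
      ⟨hid, fun θ hθ u u' hs hu t => (hp θ hθ u u' hs hu t).symm,
        fun θ hθ b y hu x x' m hx hx' t => (hn θ hθ b y hu x x' m hx hx' t).symm, h8⟩ t u

theorem propertyP_iff : PropertyP N.family ↔ ¬ ∃ c, N.Valid c :=
  ⟨fun h ⟨c, hc⟩ => N.not_propertyP c hc h, propertyP_of⟩

end Network

end Pool.Agent.Helper59.PZ
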